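import Pool.Agent.Lib_helper20.PF.Groups

/-!
# Finite solvable groups of order `q m` whose abelianization has order `q`
-/

namespace Pool.Agent.PF20

open Subgroup

/-- The abelianization of a quotient has order dividing the order of the abelianization, with
equality if the kernel is contained in the commutator subgroup. -/
lemma card_ab_quot {N : Type*} [Group N] (L : Subgroup N) [L.Normal] :
    Nat.card (Abelianization (N ⧸ L)) = (commutator N ⊔ L).index := by
  have h1 : commutator (N ⧸ L) = (commutator N).map (QuotientGroup.mk' L) := by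
    rw [commutator_def, commutator_def, Subgroup.map_commutator, ← MonoidHom.range_eq_map,
      QuotientGroup.range_mk']
  have h2 : Nat.card (Abelianization (N ⧸ L)) = (commutator (N ⧸ L)).index := rfl
  rw [h2, h1, Subgroup.index_map, QuotientGroup.ker_mk', QuotientGroup.range_mk',
    Subgroup.index_top, mul_one]

/-- Let `N` be finite solvable of order `q m`, `q` a prime not dividing `m`, `m ≠ 1`, with
abelianization of order `q`.  Then `q` divides `r ^ i - 1` for a prime power `r ^ i ∣ m`. -/
theorem exists_prime_pow {q : ℕ} (hq : q.Prime) :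
    ∀ (n : ℕ) {N : Type} [Group N] [Finite N] (_ : Nat.card N = n) (m : ℕ) (_ : Nat.card N = q * m)
      (_ : ¬ q ∣ m) (_ : m ≠ 1) (_ : Group.IsSolvable N) (_ : Nat.card (Abelianization N) = q),
      ∃ r i : ℕ, r.Prime ∧ 0 < i ∧ r ^ i ∣ m ∧ q ∣ r ^ i - 1 := by
  intro n
  induction n using Nat.strong_induction_on with
  | _ n ih =>
  intro N _ _ hn m hN hqm hm1 hs hab
  have hq' : Fact q.Prime := ⟨hq⟩
  have hm0 : m ≠ 0 := by rintro rfl; exact hqm (dvd_zero _)
  have hidx : (commutator N).index = q := hab
  have hcard : Nat.card (commutator N) = m := by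
    have h1 := (commutator N).card_mul_index
    rw [hidx, hN, mul_comm] at h1
    exact Nat.eq_of_mul_eq_mul_left hq.pos h1
  by_cases hex : ∃ L : Subgroup N, L.Normal ∧ L ≤ commutator N ∧ L ≠ ⊥ ∧ L ≠ commutator N
  · -- pass to the quotient
    obtain ⟨L, hL, hLle, hLbot, hLne⟩ := hex
    have hLc : 1 < Nat.card L := by
      rw [Subgroup.one_lt_card_iff_ne_bot]; exact hLbot
    have hquot : Nat.card (N ⧸ L) * Nat.card L = Nat.card N :=
      (Subgroup.card_eq_card_quotient_mul_card_subgroup L).symm
    obtain ⟨d, hd⟩ : Nat.card L ∣ m := by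
      rw [← hcard]
      exact Subgroup.card_dvd_of_le hLle
    have hcq : Nat.card (N ⧸ L) = q * d := by
      rw [hN, hd] at hquot
      have : 0 < Nat.card L := Nat.card_pos
      nlinarith [Nat.eq_of_mul_eq_mul_right this (hquot.trans (by ring : q * (Nat.card L * d) = (q * d) * Nat.card L))]
    have hlt : Nat.card (N ⧸ L) < n := by
      rw [← hn, ← hquot]
      have : 0 < Nat.card (N ⧸ L) := Nat.card_pos
      nlinarith
    have habL : Nat.card (Abelianization (N ⧸ L)) = q := by
      rw [card_ab_quot, sup_eq_left.2 hLle, hidx]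
    have hd1 : d ≠ 1 := by
      rintro rfl
      apply hLne
      apply Subgroup.eq_of_le_of_card_ge hLle
      rw [hcard, hd, mul_one]
    obtain ⟨r, i, hr, hi, hri, hqr⟩ := ih _ hlt rfl d hcq
      (fun h => hqm (hd ▸ Dvd.dvd.mul_left h _)) hd1 inferInstance habL
    exact ⟨r, i, hr, hi, hri.trans ⟨_, by rw [hd]; ring⟩, hqr⟩
  · push Not at hex
    have hnb : commutator N ≠ ⊥ := by
      intro h
      rw [h, Subgroup.card_bot] at hcard
      exact hm1 hcard.symm
    -- a prime divisor of `m`
    obtain ⟨r, hr, hrm⟩ := Nat.exists_prime_and_dvd hm1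
    have hr' : Fact r.Prime := ⟨hr⟩
    -- the commutator subgroup of `commutator N` is trivial
    have hcomm : ⁅commutator N, commutator N⁆ = ⊥ := by
      by_contra hne
      have h1 : ⁅commutator N, commutator N⁆ = commutator N :=
        hex _ inferInstance (Subgroup.commutator_le_left _ _) hne
      exact (Group.IsSolvable.commutator_lt_of_ne_bot hnb).ne h1
    have hmul : ∀ a b : commutator N, a * b = b * a := by
      intro a b
      have h1 : (a : N) * b * (a : N)⁻¹ * (b : N)⁻¹ ∈ ⁅commutator N, commutator N⁆ := by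
        have := Subgroup.commutator_mem_commutator a.2 b.2
        rwa [commutatorElement_def] at this
      rw [hcomm, Subgroup.mem_bot] at h1
      ext
      push_cast
      have h2 := mul_inv_eq_one.1 h1
      have h3 := mul_inv_eq_iff_eq_mul.1 h2
      exact h3
    obtain ⟨R⟩ : Nonempty (Sylow r (commutator N)) := inferInstance
    have hRn : (R : Subgroup (commutator N)).Normal := by
      refine ⟨fun a ha g => ?_⟩
      rw [hmul g a, mul_assoc, mul_inv_cancel, mul_one]
      exact ha
    have hRc : (R : Subgroup (commutator N)).Characteristic := R.characteristic_of_normal hRn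
    have hRtop : (R : Subgroup (commutator N)).map (commutator N).subtype = commutator N := by
      apply hex _ inferInstance (Subgroup.map_subtype_le _)
      intro hbot
      rw [Subgroup.map_eq_bot_iff_of_injective _ (Subgroup.subtype_injective _)] at hbot
      have h1 : r ∣ Nat.card (R : Subgroup (commutator N)) :=
        R.dvd_card_of_dvd_card (by rw [hcard]; exact hrm)
      rw [hbot, Subgroup.card_bot] at h1
      exact hr.one_lt.ne' (Nat.dvd_one.1 h1)
    have hRcard : Nat.card (R : Subgroup (commutator N)) = m := by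
      have h1 := Nat.card_congr ((R : Subgroup (commutator N)).equivMapOfInjective _
          (Subgroup.subtype_injective (commutator N))).toEquiv
      rw [h1, hRtop, hcard]
    obtain ⟨s, hs'⟩ := IsPGroup.iff_card.1 R.isPGroup'
    have hms : m = r ^ s := by rw [← hRcard]; exact hs'
    -- number of Sylow q-subgroups
    obtain ⟨P⟩ : Nonempty (Sylow q N) := inferInstance
    have hPcard : Nat.card P = q := by
      rw [P.card_eq_multiplicity, hN, Nat.factorization_mul hq.ne_zero hm0, Finsupp.add_apply,
        hq.factorization_self, Nat.factorization_eq_zero_of_not_dvd hqm]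
      simp
    have hPidx : (P : Subgroup N).index = m := by
      have h1 := (P : Subgroup N).card_mul_index
      have h2 : Nat.card (P : Subgroup N) = q := hPcard
      rw [h2, hN] at h1
      exact Nat.eq_of_mul_eq_mul_left hq.pos h1
    have hnq : Nat.card (Sylow q N) ∣ m := hPidx ▸ P.card_dvd_index
    have hmod : Nat.card (Sylow q N) ≡ 1 [MOD q] := card_sylow_modEq_one q N
    rw [hms] at hnq
    obtain ⟨i, his, hi⟩ := (Nat.dvd_prime_pow hr).1 hnq
    refine ⟨r, i, hr, ?_, ?_, ?_⟩
    · -- not a single Sylow subgroup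
      by_contra hi0
      have hi0 : i = 0 := by omega
      rw [hi0, pow_zero] at hi
      have hsub : Subsingleton (Sylow q N) := (Nat.card_eq_one_iff_unique.1 hi).1
      have hnormal : (P : Subgroup N).Normal := P.normal_of_subsingleton
      have h1 : Nat.card (Abelianization (N ⧸ (P : Subgroup N))) ∣ q := by
        have h0 := Subgroup.index_dvd_of_le (le_sup_left : commutator N ≤ commutator N ⊔ P)
        rw [hidx] at h0
        rw [card_ab_quot]
        exact h0
      have h2 : Nat.card (Abelianization (N ⧸ (P : Subgroup N))) ∣ m := by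
        have h0 := Subgroup.index_dvd_of_le (le_sup_right : (P : Subgroup N) ≤ commutator N ⊔ P)
        rw [hPidx] at h0
        rw [card_ab_quot]
        exact h0
      have h3 : Nat.card (Abelianization (N ⧸ (P : Subgroup N))) = 1 := by
        have h4 := Nat.dvd_gcd h1 h2
        rw [(hq.coprime_iff_not_dvd.2 hqm).gcd_eq_one] at h4
        exact Nat.dvd_one.1 h4
      have h5 := card_eq_one_of_perfect (N := N ⧸ (P : Subgroup N)) inferInstance h3
      rw [← Subgroup.index_eq_card, hPidx] at h5
      exact hm1 h5
    · rw [hms]; exact pow_dvd_pow r his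
    · rw [← hi]
      have h1 : 1 ≤ Nat.card (Sylow q N) := Nat.card_pos
      exact (Nat.modEq_iff_dvd' h1).1 hmod.symm

/-- Solvable range: the abelianization has order `q`, the cofactor `m` is powerful, and `q` divides
`r ^ i - 1` for a prime power `r ^ i ∣ m` unless `m = 1`. -/
theorem solvable_case {G N : Type} [CommGroup G] [Group N] [Finite G] [Finite N]
    (hGN : Nat.card G = Nat.card N) (φ : G → N)
    (hφ : ∀ x : G, x ≠ 1 → Function.Bijective fun y => φ (x * y) * (φ y)⁻¹)
    (hs : Group.IsSolvable N) {q m : ℕ} (hq : q.Prime) (hN : Nat.card N = q * m) (hqm : ¬ q ∣ m) :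
    Nat.card (Abelianization N) = q ∧ (∀ r : ℕ, r.Prime → r ∣ m → r ^ 2 ∣ m) ∧
      (m ≠ 1 → ∃ r i : ℕ, r.Prime ∧ 0 < i ∧ r ^ i ∣ m ∧ q ∣ r ^ i - 1) := by
  have hd := card_ab_dvd hq hqm (hGN.trans hN) hN φ hφ
  have hab : Nat.card (Abelianization N) = q := by
    rcases (Nat.dvd_prime hq).1 hd with h | h
    · exfalso
      have h1 := card_eq_one_of_perfect hs h
      rw [h1] at hN
      exact hq.one_lt.ne' (Nat.eq_one_of_mul_eq_one_right hN.symm)
    · exact h
  refine ⟨hab, ?_, fun hm1 => exists_prime_pow hq _ rfl m hN hqm hm1 hs hab⟩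
  intro r hr hrm
  by_contra hr2
  obtain ⟨t, rfl⟩ := hrm
  have hqr : q ≠ r := by
    rintro rfl
    exact hqm ⟨t, rfl⟩
  have hrt : ¬ r ∣ q * t := by
    intro h
    rcases hr.dvd_mul.1 h with h | h
    · exact hqr ((Nat.prime_dvd_prime_iff_eq hr hq).1 h).symm
    · exact hr2 (by rw [pow_two]; exact Nat.mul_dvd_mul_left r h)
  have hN2 : Nat.card N = r * (q * t) := by rw [hN]; ring
  have hd2 := card_ab_dvd hr hrt (hGN.trans hN2) hN2 φ hφ
  rw [hab] at hd2
  exact hqr ((Nat.prime_dvd_prime_iff_eq hq hr).1 hd2)

end Pool.Agent.PF20
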