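import Pool.Agent.Lib_helper20.PF.Main2
import Pool.Agent.Lib_helper20.PF.Solv
import Pool.Agent.Lib_helper65.AAOF.LOC

/-!
# Corollaries: `N` abelian; orders `p q`
-/

namespace Pool.Agent.PF20

open Finset Subgroup

lemma odd_of_planar {G N : Type} [Group G] [Group N] [Finite G] [Finite N] (φ : G → N)
    (hφ : ∀ x : G, x ≠ 1 → Function.Bijective fun y => φ (x * y) * (φ y)⁻¹)
    (hc : Nat.card G = Nat.card N) : Odd (Nat.card N) :=
  Pool.Agent.AAO.planar_odd φ hφ hc

/-- `N` abelian, `G` solvable: primes dividing the order exactly once are small. -/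
theorem abelian_range {G N : Type} [Group G] [CommGroup N] [Finite G] [Finite N] {q m : ℕ}
    (hs : Group.IsSolvable G) (hq : q.Prime) (hqm : ¬ q ∣ m) (hm1 : m ≠ 1)
    (hG : Nat.card G = q * m) (hN : Nat.card N = q * m) (φ : G → N)
    (hφ : ∀ x : G, x ≠ 1 → Function.Bijective fun y => φ (x * y) * (φ y)⁻¹) :
    4 * q < 9 * (m + 1) := by
  have hm0 : 0 < m := Nat.pos_of_ne_zero (by rintro rfl; exact hqm (dvd_zero _))
  have hv : 0 < q * m := Nat.mul_pos hq.pos hm0
  have hNcomm : commutator N = ⊥ := by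
    rw [eq_bot_iff, commutator_def, Subgroup.commutator_le]
    intro a _ b _
    rw [Subgroup.mem_bot, commutatorElement_def, mul_comm a b]
    simp
  have hcN : Nat.card (commutator N) = 1 := by rw [hNcomm, Subgroup.card_bot]
  have habN : Nat.card (Abelianization N) = q * m := by
    have h1 := (commutator N).card_mul_index
    rw [hcN, one_mul, hN] at h1
    exact h1
  obtain ⟨r, hr, hrm⟩ := Nat.exists_prime_and_dvd hm1
  have hrq : r ≠ q := by rintro rfl; exact hqm hrm
  -- the abelianization of `G`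
  have habG : 3 ≤ Nat.card (Abelianization G) := by
    have hodd : Odd (Nat.card G) := by
      rw [hG, ← hN]; exact odd_of_planar φ hφ (hG.trans hN.symm)
    have hdvd : Nat.card (Abelianization G) ∣ Nat.card G := Subgroup.card_quotient_dvd_card _
    have hodd' : Odd (Nat.card (Abelianization G)) := Odd.of_dvd_nat hodd hdvd
    have hne : Nat.card (Abelianization G) ≠ 1 := by
      intro h0
      have h1 := card_eq_one_of_perfect hs h0
      rw [hG] at h1
      exact hq.one_lt.ne' (Nat.eq_one_of_mul_eq_one_right h1)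
    obtain ⟨t, ht⟩ := hodd'
    omega
  have hprod : Nat.card (commutator G) * Nat.card (Abelianization G) = q * m := by
    have h1 := (commutator G).card_mul_index
    rw [hG] at h1
    exact h1
  have hD : Nat.card (commutator G) * Nat.card (commutator N) ≤ q * m := by
    rw [hcN, mul_one, ← hprod]
    exact Nat.le_mul_of_pos_right _ (by omega)
  have h1 := comm_ineq hq hqm hG hN φ hφ (by rw [habN]; exact (dvd_mul_right q m).mul_left _)
    hr hrq (by rw [habN]; exact hrm.mul_left q) hD
  rw [hcN, mul_one] at h1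
  -- `3 c ≤ v`
  have h3c : 3 * Nat.card (commutator G) ≤ q * m := by
    rw [← hprod]
    nlinarith [Nat.mul_le_mul_left (Nat.card (commutator G)) habG]
  have h4 : 2 * (q * m) ≤ 3 * (q * m - Nat.card (commutator G)) := by omega
  have h5 : 4 * (q * m) ^ 2 ≤ 9 * (q * m - Nat.card (commutator G)) ^ 2 := by
    have := Nat.pow_le_pow_left h4 2
    nlinarith
  by_contra hcon
  push Not at hcon
  have h6 : 9 * ((m + 1) * (q * m) ^ 2) ≤ 9 * (q * (q * m - Nat.card (commutator G)) ^ 2) := by
    calc 9 * ((m + 1) * (q * m) ^ 2) = (9 * (m + 1)) * (q * m) ^ 2 := by ring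
      _ ≤ (4 * q) * (q * m) ^ 2 := Nat.mul_le_mul_right _ hcon
      _ = q * (4 * (q * m) ^ 2) := by ring
      _ ≤ q * (9 * (q * m - Nat.card (commutator G)) ^ 2) := Nat.mul_le_mul_left q h5
      _ = 9 * (q * (q * m - Nat.card (commutator G)) ^ 2) := by ring
  omega

/-- the order of the commutator subgroup of a noncommutative group of order `p q`, `p < q`. -/
lemma card_comm_pq {G : Type} [Group G] [Finite G] {p q : ℕ} (hp : p.Prime) (hq : q.Prime)
    (hpq : p < q) (hG : Nat.card G = q * p) (hne : Nat.card (commutator G) ≠ 1) :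
    Nat.card (commutator G) = q := by
  have hq' : Fact q.Prime := ⟨hq⟩
  have hqp : ¬ q ∣ p := fun h => (Nat.le_of_dvd hp.pos h).not_gt hpq
  obtain ⟨P⟩ : Nonempty (Sylow q G) := inferInstance
  have hPcard : Nat.card P = q := by
    rw [P.card_eq_multiplicity, hG, Nat.factorization_mul hq.ne_zero hp.ne_zero, Finsupp.add_apply,
      hq.factorization_self, Nat.factorization_eq_zero_of_not_dvd hqp]
    simp
  have hPidx : (P : Subgroup G).index = p := by
    have h1 := (P : Subgroup G).card_mul_index
    have h2 : Nat.card (P : Subgroup G) = q := hPcard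
    rw [h2, hG] at h1
    exact Nat.eq_of_mul_eq_mul_left hq.pos h1
  have hnq : Nat.card (Sylow q G) ∣ p := hPidx ▸ P.card_dvd_index
  have hmod : Nat.card (Sylow q G) ≡ 1 [MOD q] := card_sylow_modEq_one q G
  have h1 : Nat.card (Sylow q G) = 1 := by
    have hle : Nat.card (Sylow q G) ≤ p := Nat.le_of_dvd hp.pos hnq
    have h2 : Nat.card (Sylow q G) % q = 1 % q := hmod
    rw [Nat.mod_eq_of_lt (by omega), Nat.mod_eq_of_lt hq.one_lt] at h2
    exact h2
  have hsub : Subsingleton (Sylow q G) := (Nat.card_eq_one_iff_unique.1 h1).1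
  have hnormal : (P : Subgroup G).Normal := P.normal_of_subsingleton
  have hle : commutator G ≤ (P : Subgroup G) := by
    have hcyc : IsCyclic (G ⧸ (P : Subgroup G)) := by
      have hp' : Fact p.Prime := ⟨hp⟩
      apply isCyclic_of_prime_card (p := p)
      rw [← Subgroup.index_eq_card]; exact hPidx
    have hcomm : ∀ a b : G ⧸ (P : Subgroup G), a * b = b * a := by
      intro a b
      obtain ⟨g, hg⟩ := hcyc.exists_generator
      obtain ⟨i, rfl⟩ := hg a
      obtain ⟨j, rfl⟩ := hg b
      simp only [← zpow_add, add_comm]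
    rw [commutator_def, Subgroup.commutator_le]
    intro a _ b _
    rw [← QuotientGroup.eq_one_iff, commutatorElement_def]
    change (a : G ⧸ (P : Subgroup G)) * b * (a : G ⧸ (P : Subgroup G))⁻¹ *
      (b : G ⧸ (P : Subgroup G))⁻¹ = 1
    rw [hcomm (a : G ⧸ (P : Subgroup G)) b, mul_inv_cancel_right, mul_inv_cancel]
  have hdvd := Subgroup.card_dvd_of_le hle
  have h2 : Nat.card (P : Subgroup G) = q := hPcard
  rw [h2] at hdvd
  rcases (Nat.dvd_prime hq).1 hdvd with h | h
  · exact absurd h hne
  · exact h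

/-- Orders `p q`: neither group is commutative. -/
theorem pq_case {G N : Type} [Group G] [CommGroup N] [Finite G] [Finite N] {p q : ℕ}
    (hp : p.Prime) (hq : q.Prime) (hpq : p < q) (hG : Nat.card G = q * p)
    (hN : Nat.card N = q * p) (φ : G → N)
    (hφ : ∀ x : G, x ≠ 1 → Function.Bijective fun y => φ (x * y) * (φ y)⁻¹)
    (hne : Nat.card (commutator G) ≠ 1) : False := by
  have hodd := odd_of_planar φ hφ (hG.trans hN.symm)
  rw [hN, Nat.odd_mul] at hodd
  have hc := card_comm_pq hp hq hpq hG hne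
  have hqp : ¬ q ∣ p := fun h => (Nat.le_of_dvd hp.pos h).not_gt hpq
  have hpq' : ¬ p ∣ q := fun h => hpq.ne ((Nat.prime_dvd_prime_iff_eq hp hq).1 h)
  -- the abelianization of `G` has order `p`
  have habG : Nat.card (Abelianization G) = p := by
    have h1 := (commutator G).card_mul_index
    rw [hc, hG] at h1
    exact Nat.eq_of_mul_eq_mul_left hq.pos h1
  have hz : IsZGroup G := IsZGroup.of_squarefree (by
    rw [hG, Nat.squarefree_mul ((Nat.coprime_primes hq hp).2 hpq.ne')]
    exact ⟨hq.prime.squarefree, hp.prime.squarefree⟩)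
  have hs : Group.IsSolvable G := inferInstance
  -- `q ≡ 1 (mod p)`
  have hmodp : p ∣ q - 1 := by
    obtain ⟨r, i, hr, hi, hri, hpr⟩ := exists_prime_pow hp _ rfl q (hG.trans (mul_comm q p)) hpq'
      hq.one_lt.ne' hs habG
    rcases (Nat.dvd_prime hq).1 hri with h | h
    · exfalso
      have : 1 < r ^ i := Nat.one_lt_pow (by omega) hr.one_lt
      omega
    · rwa [h] at hpr
  obtain ⟨t, ht⟩ := hmodp
  have hq1 : q = p * t + 1 := by have := hq.one_lt; omega
  have ht2 : 2 ≤ t := by
    obtain ⟨a, ha⟩ := hodd.1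
    obtain ⟨b, hb⟩ := hodd.2
    rcases Nat.lt_or_ge t 2 with h | h
    · interval_cases t
      · omega
      · omega
    · exact h
  have hp3 : 3 ≤ p := by
    obtain ⟨b, hb⟩ := hodd.2
    have := hp.two_le
    omega
  -- the inequality
  have hNcomm : commutator N = ⊥ := by
    rw [eq_bot_iff, commutator_def, Subgroup.commutator_le]
    intro a _ b _
    rw [Subgroup.mem_bot, commutatorElement_def, mul_comm a b]
    simp
  have hcN : Nat.card (commutator N) = 1 := by rw [hNcomm, Subgroup.card_bot]
  have habN : Nat.card (Abelianization N) = q * p := by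
    have h1 := (commutator N).card_mul_index
    rw [hcN, one_mul, hN] at h1
    exact h1
  have h1 := comm_ineq hq hqp hG hN φ hφ (by rw [habN]; exact (dvd_mul_right q p).mul_left _)
    hp hpq.ne (by rw [habN]; exact dvd_mul_left p q)
    (by rw [hc, hcN, mul_one]; exact Nat.le_mul_of_pos_right _ hp.pos)
  rw [hc, hcN, mul_one] at h1
  have h2 : q * p - q = q * (p - 1) := by rw [Nat.mul_sub, mul_one]
  rw [h2] at h1
  have h3 : q * (p - 1) ^ 2 < (p + 1) * p ^ 2 := by
    have h4 : q ^ 2 * (q * (p - 1) ^ 2) < q ^ 2 * ((p + 1) * p ^ 2) := by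
      calc q ^ 2 * (q * (p - 1) ^ 2) = q * (q * (p - 1)) ^ 2 := by ring
        _ < (p + 1) * (q * p) ^ 2 := h1
        _ = q ^ 2 * ((p + 1) * p ^ 2) := by ring
    exact Nat.lt_of_mul_lt_mul_left h4
  obtain ⟨s, rfl⟩ : ∃ s, p = s + 1 := ⟨p - 1, by omega⟩
  rw [Nat.add_sub_cancel] at h3
  have hs2 : 2 ≤ s := by omega
  have h5 : 2 * (s + 1) + 1 ≤ q := by
    rw [hq1]
    nlinarith
  -- `(2 s + 3) s ^ 2 < (s + 2) (s + 1) ^ 2`, so `s = 2`
  have h6 : s < 3 := by
    by_contra hcon
    push Not at hcon
    have h7 : (2 * (s + 1) + 1) * s ^ 2 < (s + 1 + 1) * (s + 1) ^ 2 :=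
      lt_of_le_of_lt (Nat.mul_le_mul_right _ h5) h3
    nlinarith
  have hs' : s = 2 := by omega
  subst hs'
  -- `q < 9`, so `q = 7`
  have h8 : q < 9 := by omega
  have h9 : q = 7 := by
    interval_cases q
    all_goals first
      | rfl
      | omega
  subst h9
  -- the local condition
  have hW := Pool.Agent.AAO.planarOrder_W 21 ⟨G, N, inferInstance, inferInstance, inferInstance,
    inferInstance, hG, hN, φ, hφ⟩
  have h10 := hW.2 7 3 (by norm_num) (by norm_num) (by norm_num) (by norm_num) (by
    have : (21 : ℕ) = 3 * 7 := by norm_num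
    rw [this, Nat.factorization_mul (by norm_num) (by norm_num), Finsupp.add_apply,
      Nat.Prime.factorization_self (by norm_num),
      Nat.factorization_eq_zero_of_not_dvd (by norm_num)]
    exact odd_one)
  revert h10
  decide

end Pool.Agent.PF20
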