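import Mathlib

/-!
# Core lemma for planar functions on abelian groups

`K × P` a finite abelian group, `P` of prime order `q`, `K` of order `m` prime to `q`, `k` an
algebraically closed field of characteristic `q`.  There is no function `u : K × P → kˣ` such that
the Teichmüller lifts of `u (x y) / u y` sum to zero over `y` for every `x ≠ 1`.
-/

namespace Pool.Agent.PF20

open WittVector Finset

/-- `(∑ θ(g) U(g)) (∑ θ(g⁻¹) V(g)) = ∑ U(g) V(g)` when all nontrivial correlations vanish. -/
lemma prodId {G R : Type*} [Group G] [Fintype G] [CommRing R] (θ : G →* R) (U V : G → R)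
    (h : ∀ x : G, x ≠ 1 → ∑ y, U (x * y) * V y = 0) :
    (∑ g, θ g * U g) * (∑ g, θ g⁻¹ * V g) = ∑ g, U g * V g := by
  classical
  have h1 : (∑ g, θ g * U g) * (∑ g, θ g⁻¹ * V g)
      = ∑ y, ∑ x, θ x * (U (x * y) * V y) := by
    rw [Finset.sum_mul_sum, Finset.sum_comm]
    refine Finset.sum_congr rfl fun y _ => ?_
    rw [← Equiv.sum_comp (Equiv.mulRight y)]
    refine Finset.sum_congr rfl fun x _ => ?_
    have : θ (x * y) * θ y⁻¹ = θ x := by rw [← map_mul]; simp
    simp only [Equiv.coe_mulRight]
    linear_combination (U (x * y) * V y) * this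
  rw [h1, Finset.sum_comm]
  rw [Finset.sum_eq_single (1 : G)]
  · simp
  · intro x _ hx
    rw [← Finset.mul_sum, h x hx, mul_zero]
  · intro h; exact absurd (Finset.mem_univ _) h

section core

variable {q : ℕ} [hq : Fact q.Prime] {k : Type*} [Field k] [CharP k q]

/-- Two elements of `W(k)` whose product is `q m`, `q ∤ m`, are not both divisible by `q`. -/
lemma not_both [PerfectRing k q] {m : ℕ} (hm : ¬ q ∣ m) {A B : WittVector q k}
    (h : A * B = ((q * m : ℕ) : WittVector q k)) :
    A.coeff 0 ≠ 0 ∨ B.coeff 0 ≠ 0 := by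
  by_contra hcon
  push Not at hcon
  obtain ⟨hA, hB⟩ := hcon
  rw [← mem_span_p_iff_coeff_zero_eq_zero, Ideal.mem_span_singleton] at hA hB
  obtain ⟨a, rfl⟩ := hA
  obtain ⟨b, rfl⟩ := hB
  have h1 : (q : WittVector q k) * (q * (a * b)) = q * m := by
    push_cast at h
    linear_combination h
  have hq0 : (q : WittVector q k) ≠ 0 := WittVector.p_nonzero q k
  have h2 := mul_left_cancel₀ hq0 h1
  have h3 := congrArg (constantCoeff (p := q) (R := k)) h2
  simp only [map_mul, map_natCast, CharP.cast_eq_zero, zero_mul] at h3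
  exact hm ((CharP.cast_eq_zero_iff k q m).1 h3.symm)

variable {K P : Type*} [CommGroup K] [Fintype K] [CommGroup P] [Fintype P]

/-- the homomorphism `g ↦ single g.2 (l g.1)` into the group algebra of `P`. -/
noncomputable def th (l : K →* kˣ) : K × P →* MonoidAlgebra k P where
  toFun g := MonoidAlgebra.single g.2 ((l g.1 : kˣ) : k)
  map_one' := by simp [MonoidAlgebra.one_def]
  map_mul' x y := by simp [MonoidAlgebra.single_mul_single]

/-- the homomorphism `g ↦ τ(l g.1)` into the Witt vectors. -/
noncomputable def tw (l : K →* kˣ) : K × P →* WittVector q k where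
  toFun g := teichmuller q ((l g.1 : kˣ) : k)
  map_one' := by simp
  map_mul' x y := by simp

lemma algMap_eq (z : k) : algebraMap k (MonoidAlgebra k P) z = MonoidAlgebra.single 1 z := by
  rw [MonoidAlgebra.coe_algebraMap]; rfl

lemma core_local [IsAlgClosed k] {m : ℕ} (hm : ¬ q ∣ m)
    (hK : Fintype.card K = m) (hP : Fintype.card P = q) (u : K × P → kˣ)
    (h : ∀ x : K × P, x ≠ 1 → ∑ y, teichmuller q ((u (x * y) * (u y)⁻¹ : kˣ) : k) = 0)
    (l : K →* kˣ) :
    (∑ i : K, (l i : k) * (u (i, 1) : k)) *
      (∑ j : K, (((l j)⁻¹ : kˣ) : k) * (((u (j, 1))⁻¹ : kˣ) : k)) = 0 := by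
  classical
  have hcard : Fintype.card (K × P) = q * m := by
    rw [Fintype.card_prod, hK, hP, mul_comm]
  -- in the Witt vectors
  have hW := prodId (tw (q := q) (P := P) l) (fun g => teichmuller q ((u g : kˣ) : k))
    (fun g => teichmuller q (((u g)⁻¹ : kˣ) : k)) (by
      intro x hx
      rw [← h x hx]
      refine Finset.sum_congr rfl fun y _ => ?_
      rw [← map_mul]; simp)
  have hW2 : ∑ g : K × P, teichmuller q ((u g : kˣ) : k) * teichmuller q (((u g)⁻¹ : kˣ) : k)
      = ((q * m : ℕ) : WittVector q k) := by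
    have : ∀ g : K × P, teichmuller q ((u g : kˣ) : k) * teichmuller q (((u g)⁻¹ : kˣ) : k)
        = (1 : WittVector q k) := by
      intro g
      rw [← map_mul]; simp
    simp only [this]
    rw [Finset.sum_const, Finset.card_univ, hcard]; simp
  rw [hW2] at hW
  have hnb := not_both hm hW
  -- in the group algebra
  have hM := prodId (th (k := k) (P := P) l) (fun g => algebraMap k (MonoidAlgebra k P) (u g))
    (fun g => algebraMap k (MonoidAlgebra k P) (((u g)⁻¹ : kˣ) : k)) (by
      intro x hx
      have h1 := congrArg (constantCoeff (p := q) (R := k)) (h x hx)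
      rw [map_sum, map_zero] at h1
      have h2 : ∀ z : k, constantCoeff (teichmuller q z) = z := fun z => rfl
      simp only [h2] at h1
      simp only [← map_mul, ← map_sum]
      rw [← map_zero (algebraMap k (MonoidAlgebra k P)), ← h1]
      congr 1)
  have hM2 : ∑ g : K × P, algebraMap k (MonoidAlgebra k P) (u g) *
      algebraMap k (MonoidAlgebra k P) (((u g)⁻¹ : kˣ) : k) = 0 := by
    have : ∀ g : K × P, algebraMap k (MonoidAlgebra k P) (u g) *
      algebraMap k (MonoidAlgebra k P) (((u g)⁻¹ : kˣ) : k) = 1 := by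
      intro g
      rw [← map_mul, Units.mul_inv, map_one]
    simp only [this]
    rw [Finset.sum_const, Finset.card_univ, hcard, nsmul_eq_mul, mul_one]
    have : ((q * m : ℕ) : MonoidAlgebra k P) = algebraMap k (MonoidAlgebra k P) ((q * m : ℕ) : k) := by
      rw [map_natCast]
    rw [this, Nat.cast_mul, CharP.cast_eq_zero, zero_mul, map_zero]
  rw [hM2] at hM
  have : CharP (MonoidAlgebra k P) q :=
    charP_of_injective_algebraMap (algebraMap k (MonoidAlgebra k P)).injective q
  have hpow : ∀ x : P, x ^ q = 1 := fun x => by rw [← hP]; exact pow_card_eq_one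
  -- the two factors
  set A := ∑ g : K × P, th (k := k) l g * algebraMap k (MonoidAlgebra k P) (u g) with hA
  set B := ∑ g : K × P, th (k := k) l g⁻¹ * algebraMap k (MonoidAlgebra k P) (((u g)⁻¹ : kˣ) : k)
    with hB
  have hAq : A ^ q = algebraMap k (MonoidAlgebra k P) ((∑ g : K × P, (l g.1 : k) * (u g : k)) ^ q) := by
    rw [hA, sum_pow_char, sum_pow_char, map_sum]
    refine Finset.sum_congr rfl fun g _ => ?_
    rw [mul_pow, mul_pow, map_mul, map_pow, map_pow]
    congr 1
    simp only [th, MonoidHom.coe_mk, OneHom.coe_mk, algMap_eq, MonoidAlgebra.single_pow, hpow,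
      one_pow]
  have hBq : B ^ q = algebraMap k (MonoidAlgebra k P)
      ((∑ g : K × P, (((l g.1)⁻¹ : kˣ) : k) * (((u g)⁻¹ : kˣ) : k)) ^ q) := by
    rw [hB, sum_pow_char, sum_pow_char, map_sum]
    refine Finset.sum_congr rfl fun g _ => ?_
    rw [mul_pow, mul_pow, map_mul, map_pow, map_pow]
    congr 1
    simp only [th, MonoidHom.coe_mk, OneHom.coe_mk, algMap_eq, MonoidAlgebra.single_pow, hpow,
      one_pow, Prod.fst_inv, map_inv]
  have hA1 : A.coeff 1 = ∑ i : K, (l i : k) * (u (i, 1) : k) := by
    rw [hA, MonoidAlgebra.coeff_sum, Finsupp.finsetSum_apply, Fintype.sum_prod_type]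
    refine Finset.sum_congr rfl fun i _ => ?_
    rw [Finset.sum_eq_single (1 : P)]
    · simp [th, algMap_eq, MonoidAlgebra.single_mul_single]
    · intro x _ hx
      simp [th, algMap_eq, MonoidAlgebra.single_mul_single, hx]
    · intro h; exact absurd (Finset.mem_univ _) h
  have hB1 : B.coeff 1 = ∑ j : K, (((l j)⁻¹ : kˣ) : k) * (((u (j, 1))⁻¹ : kˣ) : k) := by
    rw [hB, MonoidAlgebra.coeff_sum, Finsupp.finsetSum_apply, Fintype.sum_prod_type]
    refine Finset.sum_congr rfl fun i _ => ?_
    rw [Finset.sum_eq_single (1 : P)]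
    · simp [th, algMap_eq, MonoidAlgebra.single_mul_single]
    · intro x _ hx
      simp [th, algMap_eq, MonoidAlgebra.single_mul_single, hx]
    · intro h; exact absurd (Finset.mem_univ _) h
  rw [← hA1, ← hB1]
  rcases hnb with hnb | hnb
  · have hne : (∑ g : K × P, (l g.1 : k) * (u g : k)) ≠ 0 := by
      intro h0
      apply hnb
      change constantCoeff _ = 0
      rw [map_sum, ← h0]
      refine Finset.sum_congr rfl fun g _ => ?_
      rw [map_mul]; rfl
    have hu : IsUnit (A ^ q) := by
      rw [hAq]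
      exact (IsUnit.mk0 _ (pow_ne_zero _ hne)).map _
    have hu' : IsUnit A := by
      rwa [isUnit_pow_iff hq.out.ne_zero] at hu
    have hB0 : B = 0 := by
      rwa [hu'.mul_right_eq_zero] at hM
    rw [hB0]; simp
  · have hne : (∑ g : K × P, (((l g.1)⁻¹ : kˣ) : k) * (((u g)⁻¹ : kˣ) : k)) ≠ 0 := by
      intro h0
      apply hnb
      change constantCoeff _ = 0
      rw [map_sum, ← h0]
      refine Finset.sum_congr rfl fun g _ => ?_
      rw [map_mul]
      simp only [tw, MonoidHom.coe_mk, OneHom.coe_mk, Prod.fst_inv, map_inv]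
      rfl
    have hu : IsUnit (B ^ q) := by
      rw [hBq]
      exact (IsUnit.mk0 _ (pow_ne_zero _ hne)).map _
    have hu' : IsUnit B := by
      rwa [isUnit_pow_iff hq.out.ne_zero] at hu
    have hA0 : A = 0 := by
      rwa [hu'.mul_left_eq_zero] at hM
    rw [hA0]; simp

/-- Core lemma: no such function `u` exists. -/
theorem core [IsAlgClosed k] {m : ℕ} (hm : ¬ q ∣ m)
    (hK : Fintype.card K = m) (hP : Fintype.card P = q) (u : K × P → kˣ)
    (h : ∀ x : K × P, x ≠ 1 → ∑ y, teichmuller q ((u (x * y) * (u y)⁻¹ : kˣ) : k) = 0) : False := by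
  classical
  have hmk : (m : k) ≠ 0 := fun h0 => hm ((CharP.cast_eq_zero_iff k q m).1 h0)
  have hexp : NeZero ((Monoid.exponent K : ℕ) : k) := by
    refine ⟨fun h0 => hm ?_⟩
    rw [CharP.cast_eq_zero_iff k q] at h0
    exact h0.trans (hK ▸ Group.exponent_dvd_card)
  have : Finite (K →* kˣ) :=
    Finite.of_equiv K (CommGroup.monoidHom_mulEquiv_of_hasEnoughRootsOfUnity K k).some.symm.toEquiv
  have : Fintype (K →* kˣ) := Fintype.ofFinite _
  have hcardH : Fintype.card (K →* kˣ) = m := by
    rw [← Nat.card_eq_fintype_card, CommGroup.card_monoidHom_of_hasEnoughRootsOfUnity,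
      Nat.card_eq_fintype_card, hK]
  have horth : ∀ z : K, ∑ l : K →* kˣ, ((l z : kˣ) : k) = if z = 1 then (m : k) else 0 := by
    intro z
    split_ifs with hz
    · subst hz; simp [hcardH]
    · obtain ⟨l0, hl0⟩ := CommGroup.exists_apply_ne_one_of_hasEnoughRootsOfUnity K k hz
      let ev : (K →* kˣ) →* k := (Units.coeHom k).comp (MonoidHom.eval z)
      have := sum_hom_units_eq_zero ev (by
        intro h1
        apply hl0
        have h2 := DFunLike.congr_fun h1 l0
        exact Units.ext h2)
      exact this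
  have key : ∑ l : K →* kˣ, (∑ i : K, (l i : k) * (u (i, 1) : k)) *
      (∑ j : K, (((l j)⁻¹ : kˣ) : k) * (((u (j, 1))⁻¹ : kˣ) : k)) = 0 :=
    Finset.sum_eq_zero fun l _ => core_local hm hK hP u h l
  have key2 : ∑ l : K →* kˣ, (∑ i : K, (l i : k) * (u (i, 1) : k)) *
      (∑ j : K, (((l j)⁻¹ : kˣ) : k) * (((u (j, 1))⁻¹ : kˣ) : k)) = (m : k) * m := by
    calc _ = ∑ i : K, ∑ j : K, ((u (i, 1) : k) * (((u (j, 1))⁻¹ : kˣ) : k)) *
          ∑ l : K →* kˣ, ((l (i * j⁻¹) : kˣ) : k) := by
            have e1 : ∀ l : K →* kˣ, (∑ i : K, (l i : k) * (u (i, 1) : k)) *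
                (∑ j : K, (((l j)⁻¹ : kˣ) : k) * (((u (j, 1))⁻¹ : kˣ) : k))
                = ∑ i : K, ∑ j : K, ((u (i, 1) : k) * (((u (j, 1))⁻¹ : kˣ) : k)) *
                  ((l (i * j⁻¹) : kˣ) : k) := by
              intro l
              rw [Finset.sum_mul_sum]
              refine Finset.sum_congr rfl fun i _ => ?_
              refine Finset.sum_congr rfl fun j _ => ?_
              rw [map_mul, map_inv, Units.val_mul]; ring
            rw [Finset.sum_congr rfl fun l _ => e1 l, Finset.sum_comm]
            refine Finset.sum_congr rfl fun i _ => ?_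
            rw [Finset.sum_comm]
            refine Finset.sum_congr rfl fun j _ => ?_
            rw [Finset.mul_sum]
      _ = ∑ i : K, (m : k) := by
            refine Finset.sum_congr rfl fun i _ => ?_
            rw [Finset.sum_eq_single i]
            · rw [mul_inv_cancel, horth]; simp
            · intro j _ hj
              rw [horth, if_neg, mul_zero]
              intro h1
              exact hj (mul_inv_eq_one.1 h1).symm
            · intro h; exact absurd (Finset.mem_univ _) h
      _ = (m : k) * m := by simp [hK]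
  rw [key] at key2
  exact (mul_ne_zero hmk hmk) key2.symm

end core

end Pool.Agent.PF20
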