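import Mathlib

/-!
# Counting lemmas: powerful numbers, and numbers `q m` with `m` powerful and `q ∣ r ^ i - 1`
-/

namespace Pool.Agent.PF20

open Finset Real

/-- `n` is powerful: every prime divisor divides it at least twice. -/
def Pow2 (n : ℕ) : Prop := ∀ r : ℕ, r.Prime → r ∣ n → r ^ 2 ∣ n

noncomputable instance : DecidablePred Pow2 := Classical.decPred _

lemma pow2_repr {n : ℕ} (hn : n ≠ 0) (h : Pow2 n) :
    ∃ a c : ℕ, 0 < a ∧ 0 < c ∧ a ^ 3 * c ^ 2 = n := by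
  obtain ⟨a, b, hab, hsq⟩ := Nat.sq_mul_squarefree n
  have ha0 : a ≠ 0 := by rintro rfl; simp at hab; exact hn hab.symm
  have hb0 : b ≠ 0 := by rintro rfl; simp at hab; exact hn hab.symm
  have hdvd : a ∣ b := by
    rw [← Nat.prod_primeFactors_of_squarefree hsq]
    refine Finset.prod_primes_dvd b (fun p hp => (Nat.prime_of_mem_primeFactors hp).prime) ?_
    intro p hp
    have hpp := Nat.prime_of_mem_primeFactors hp
    have hpa := Nat.dvd_of_mem_primeFactors hp
    by_contra hpb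
    have h1 : p ^ 2 ∣ b ^ 2 * a := by
      rw [hab]
      exact h p hpp (hab ▸ Dvd.dvd.mul_left hpa _)
    have hco : Nat.Coprime (p ^ 2) (b ^ 2) :=
      Nat.Coprime.pow 2 2 ((Nat.Prime.coprime_iff_not_dvd hpp).2 hpb)
    have h2 : p ^ 2 ∣ a := hco.dvd_of_dvd_mul_left h1
    rw [pow_two] at h2
    exact hpp.one_lt.ne' (Nat.isUnit_iff.1 (hsq p h2))
  obtain ⟨c, rfl⟩ := hdvd
  have hc0 : c ≠ 0 := by rintro rfl; simp at hb0
  exact ⟨a, c, by omega, by omega, by rw [← hab]; ring⟩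

lemma sqrt_cube (a : ℕ) : √((a : ℝ) ^ 3) = (a : ℝ) ^ (3 / 2 : ℝ) := by
  rw [Real.sqrt_eq_rpow, ← Real.rpow_natCast, ← Real.rpow_mul (Nat.cast_nonneg a)]
  norm_num

lemma count_pow2 : ∃ C : ℝ, 0 < C ∧ ∀ X : ℕ,
    ((((Finset.Icc 1 X).filter Pow2).card : ℕ) : ℝ) ≤ C * √X := by
  classical
  have hsum : Summable (fun a : ℕ => 1 / (a : ℝ) ^ (3 / 2 : ℝ)) :=
    Real.summable_one_div_nat_rpow.2 (by norm_num)
  refine ⟨∑' a : ℕ, 1 / (a : ℝ) ^ (3 / 2 : ℝ) + 1, ?_, ?_⟩
  · have : 0 ≤ ∑' a : ℕ, 1 / (a : ℝ) ^ (3 / 2 : ℝ) := tsum_nonneg fun a => by positivity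
    linarith
  intro X
  have hsub : (Finset.Icc 1 X).filter Pow2 ⊆ (Finset.Icc 1 X).biUnion fun a =>
      (Finset.Icc 1 ⌊√((X : ℝ) / (a : ℝ) ^ 3)⌋₊).image fun c => a ^ 3 * c ^ 2 := by
    intro n hn
    rw [Finset.mem_filter, Finset.mem_Icc] at hn
    obtain ⟨⟨h1, h2⟩, h3⟩ := hn
    obtain ⟨a, c, ha, hc, hac⟩ := pow2_repr (by omega) h3
    have haX : a ≤ X := by
      calc a ≤ a ^ 3 := Nat.le_self_pow (by norm_num) a
        _ ≤ a ^ 3 * c ^ 2 := Nat.le_mul_of_pos_right _ (by positivity)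
        _ ≤ X := by rw [hac]; exact h2
    rw [Finset.mem_biUnion]
    refine ⟨a, Finset.mem_Icc.2 ⟨ha, haX⟩, ?_⟩
    rw [Finset.mem_image]
    refine ⟨c, Finset.mem_Icc.2 ⟨hc, ?_⟩, hac⟩
    apply Nat.le_floor
    apply Real.le_sqrt_of_sq_le
    rw [le_div_iff₀ (by positivity)]
    have : ((a ^ 3 * c ^ 2 : ℕ) : ℝ) ≤ X := by exact_mod_cast hac ▸ h2
    push_cast at this
    linarith
  have h1 : (((((Finset.Icc 1 X).filter Pow2).card : ℕ)) : ℝ)
      ≤ ∑ a ∈ Finset.Icc 1 X, √((X : ℝ) / (a : ℝ) ^ 3) := by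
    calc ((((Finset.Icc 1 X).filter Pow2).card : ℕ) : ℝ)
        ≤ ((((Finset.Icc 1 X).biUnion fun a =>
            (Finset.Icc 1 ⌊√((X : ℝ) / (a : ℝ) ^ 3)⌋₊).image fun c => a ^ 3 * c ^ 2).card : ℕ) : ℝ) := by
          exact_mod_cast Finset.card_le_card hsub
      _ ≤ ((∑ a ∈ Finset.Icc 1 X, ((Finset.Icc 1 ⌊√((X : ℝ) / (a : ℝ) ^ 3)⌋₊).image
            fun c => a ^ 3 * c ^ 2).card : ℕ) : ℝ) := by
          exact_mod_cast Finset.card_biUnion_le
      _ ≤ ∑ a ∈ Finset.Icc 1 X, √((X : ℝ) / (a : ℝ) ^ 3) := by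
          push_cast
          refine Finset.sum_le_sum fun a _ => ?_
          calc _ ≤ ((((Finset.Icc 1 ⌊√((X : ℝ) / (a : ℝ) ^ 3)⌋₊).card : ℕ)) : ℝ) := by
                exact_mod_cast Finset.card_image_le
            _ = (⌊√((X : ℝ) / (a : ℝ) ^ 3)⌋₊ : ℝ) := by simp
            _ ≤ _ := Nat.floor_le (Real.sqrt_nonneg _)
  have h2 : ∑ a ∈ Finset.Icc 1 X, √((X : ℝ) / (a : ℝ) ^ 3)
      = √X * ∑ a ∈ Finset.Icc 1 X, 1 / (a : ℝ) ^ (3 / 2 : ℝ) := by
    rw [Finset.mul_sum]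
    refine Finset.sum_congr rfl fun a _ => ?_
    rw [Real.sqrt_div (Nat.cast_nonneg X), sqrt_cube]; ring
  have h3 : ∑ a ∈ Finset.Icc 1 X, 1 / (a : ℝ) ^ (3 / 2 : ℝ) ≤ ∑' a : ℕ, 1 / (a : ℝ) ^ (3 / 2 : ℝ) :=
    hsum.sum_le_tsum _ fun a _ => by positivity
  have h4 : 0 ≤ √(X : ℝ) := Real.sqrt_nonneg _
  rw [h2] at h1
  have h5 := mul_le_mul_of_nonneg_left h3 h4
  linarith

lemma omega_le {n : ℕ} (hn : n ≠ 0) : (n.primeFactors.card : ℝ) ≤ Real.log n / Real.log 2 := by
  have h1 : 2 ^ n.primeFactors.card ≤ n := by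
    calc 2 ^ n.primeFactors.card = ∏ _p ∈ n.primeFactors, 2 := by simp
      _ ≤ ∏ p ∈ n.primeFactors, p :=
          Finset.prod_le_prod' fun p hp => (Nat.prime_of_mem_primeFactors hp).two_le
      _ ≤ n := Nat.le_of_dvd (Nat.pos_of_ne_zero hn) (Nat.prod_primeFactors_dvd n)
  have hl2 : 0 < Real.log 2 := Real.log_pos (by norm_num)
  rw [le_div_iff₀ hl2, ← Real.log_pow]
  apply Real.log_le_log (by positivity)
  exact_mod_cast h1

lemma card_primePow_le {m : ℕ} (hm : m ≠ 0) :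
    (((m.divisors.filter IsPrimePow).card : ℕ) : ℝ) ≤ Real.log m / Real.log 2 := by
  have hl2 : 0 < Real.log 2 := Real.log_pos (by norm_num)
  rw [le_div_iff₀ hl2, ← ArithmeticFunction.vonMangoldt_sum]
  calc (((m.divisors.filter IsPrimePow).card : ℕ) : ℝ) * Real.log 2
      = ∑ _d ∈ m.divisors.filter IsPrimePow, Real.log 2 := by simp
    _ ≤ ∑ d ∈ m.divisors.filter IsPrimePow, ArithmeticFunction.vonMangoldt d := by
        refine Finset.sum_le_sum fun d hd => ?_
        rw [Finset.mem_filter] at hd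
        rw [ArithmeticFunction.vonMangoldt_apply, if_pos hd.2]
        apply Real.log_le_log (by norm_num)
        exact_mod_cast (Nat.minFac_prime hd.2.ne_one).two_le
    _ ≤ _ := Finset.sum_le_sum_of_subset_of_nonneg (Finset.filter_subset _ _)
        fun d _ _ => ArithmeticFunction.vonMangoldt_nonneg

/-- The primes `q` dividing `d - 1` for a prime power `d ∣ m`. -/
noncomputable def QQ (m : ℕ) : Finset ℕ :=
  (m.divisors.filter IsPrimePow).biUnion fun d => (d - 1).primeFactors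

lemma card_QQ {m X : ℕ} (hm : m ≠ 0) (hmX : m ≤ X) :
    ((QQ m).card : ℝ) ≤ (Real.log X / Real.log 2) ^ 2 := by
  have hl2 : 0 < Real.log 2 := Real.log_pos (by norm_num)
  have hlm : Real.log m ≤ Real.log X := by
    apply Real.log_le_log
    · exact_mod_cast Nat.pos_of_ne_zero hm
    · exact_mod_cast hmX
  have hlm0 : 0 ≤ Real.log m := Real.log_natCast_nonneg m
  calc ((QQ m).card : ℝ) ≤ ((∑ d ∈ m.divisors.filter IsPrimePow, (d - 1).primeFactors.card : ℕ) : ℝ) := by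
        exact_mod_cast Finset.card_biUnion_le
    _ ≤ ∑ _d ∈ m.divisors.filter IsPrimePow, Real.log X / Real.log 2 := by
        push_cast
        refine Finset.sum_le_sum fun d hd => ?_
        rw [Finset.mem_filter] at hd
        have hd2 := hd.2.two_le
        have hdm : d ≤ m := Nat.le_of_dvd (Nat.pos_of_ne_zero hm) (Nat.dvd_of_mem_divisors hd.1)
        refine (omega_le (n := d - 1) (by omega)).trans ?_
        apply div_le_div_of_nonneg_right _ hl2.le
        apply Real.log_le_log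
        · exact_mod_cast (by omega : 0 < d - 1)
        · exact_mod_cast (by omega : d - 1 ≤ X)
    _ = (((m.divisors.filter IsPrimePow).card : ℕ) : ℝ) * (Real.log X / Real.log 2) := by simp
    _ ≤ (Real.log X / Real.log 2) * (Real.log X / Real.log 2) := by
        apply mul_le_mul_of_nonneg_right _ (by positivity)
        exact (card_primePow_le hm).trans (div_le_div_of_nonneg_right hlm hl2.le)
    _ = _ := by ring

/-- The final count. -/
theorem count_final (S : Set ℕ) (h0 : 0 ∉ S)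
    (hS : ∀ v ∈ S, Pow2 v ∨ ∃ q m : ℕ, q.Prime ∧ v = q * m ∧ Pow2 m ∧
      ∃ r i : ℕ, r.Prime ∧ 0 < i ∧ r ^ i ∣ m ∧ q ∣ r ^ i - 1) :
    ∃ C : ℝ, ∀ x : ℝ, 2 ≤ x →
      (Set.ncard {v : ℕ | (v : ℝ) ≤ x ∧ v ∈ S} : ℝ) ≤ C * √x * Real.log x ^ 2 := by
  classical
  obtain ⟨C, hC, hcount⟩ := count_pow2
  have hl2 : 0 < Real.log 2 := Real.log_pos (by norm_num)
  refine ⟨2 * C / Real.log 2 ^ 2, fun x hx => ?_⟩
  set X := ⌊x⌋₊ with hX
  have hXx : (X : ℝ) ≤ x := Nat.floor_le (by linarith)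
  have hX2 : 2 ≤ X := Nat.le_floor (by exact_mod_cast hx)
  set PX := (Finset.Icc 1 X).filter Pow2 with hPX
  have hsub : {v : ℕ | (v : ℝ) ≤ x ∧ v ∈ S} ⊆
      ((PX ∪ PX.biUnion fun m => (QQ m).image fun q => q * m : Finset ℕ) : Set ℕ) := by
    rintro v ⟨hvx, hvS⟩
    have hv0 : v ≠ 0 := by rintro rfl; exact h0 hvS
    have hvX : v ≤ X := Nat.le_floor hvx
    rw [Finset.mem_coe, Finset.mem_union]
    rcases hS v hvS with h | ⟨q, m, hq, hvm, hm, r, i, hr, hi, hrm, hqr⟩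
    · left
      rw [hPX, Finset.mem_filter, Finset.mem_Icc]
      exact ⟨⟨by omega, hvX⟩, h⟩
    · right
      have hm0 : m ≠ 0 := by rintro rfl; simp at hvm; exact hv0 hvm
      rw [Finset.mem_biUnion]
      refine ⟨m, ?_, ?_⟩
      · rw [hPX, Finset.mem_filter, Finset.mem_Icc]
        refine ⟨⟨by omega, le_trans ?_ hvX⟩, hm⟩
        rw [hvm]
        exact Nat.le_mul_of_pos_left _ hq.pos
      · rw [Finset.mem_image]
        refine ⟨q, ?_, hvm.symm⟩
        rw [QQ, Finset.mem_biUnion]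
        refine ⟨r ^ i, ?_, ?_⟩
        · rw [Finset.mem_filter, Nat.mem_divisors]
          exact ⟨⟨hrm, hm0⟩, hr.isPrimePow.pow (by omega)⟩
        · rw [Nat.mem_primeFactors]
          refine ⟨hq, hqr, ?_⟩
          have : 1 < r ^ i := Nat.one_lt_pow (by omega) hr.one_lt
          omega
  have hcard : ((Set.ncard {v : ℕ | (v : ℝ) ≤ x ∧ v ∈ S} : ℕ) : ℝ)
      ≤ PX.card + PX.card * (Real.log X / Real.log 2) ^ 2 := by
    calc ((Set.ncard {v : ℕ | (v : ℝ) ≤ x ∧ v ∈ S} : ℕ) : ℝ)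
        ≤ (((PX ∪ PX.biUnion fun m => (QQ m).image fun q => q * m : Finset ℕ).card : ℕ) : ℝ) := by
          have := Set.ncard_le_ncard hsub (Finset.finite_toSet _)
          rw [Set.ncard_coe_finset] at this
          exact_mod_cast this
      _ ≤ ((PX.card + ∑ m ∈ PX, ((QQ m).image fun q => q * m).card : ℕ) : ℝ) := by
          have h1 := Finset.card_union_le PX (PX.biUnion fun m => (QQ m).image fun q => q * m)
          have h2 : (PX.biUnion fun m => (QQ m).image fun q => q * m).card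
              ≤ ∑ m ∈ PX, ((QQ m).image fun q => q * m).card := Finset.card_biUnion_le
          exact_mod_cast (by omega :
            (PX ∪ PX.biUnion fun m => (QQ m).image fun q => q * m : Finset ℕ).card
              ≤ PX.card + ∑ m ∈ PX, ((QQ m).image fun q => q * m).card)
      _ ≤ PX.card + ∑ _m ∈ PX, (Real.log X / Real.log 2) ^ 2 := by
          push_cast
          have h1 : ∑ m ∈ PX, ((((QQ m).image fun q => q * m).card : ℕ) : ℝ)
              ≤ ∑ _m ∈ PX, (Real.log X / Real.log 2) ^ 2 := by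
            refine Finset.sum_le_sum fun m hm => ?_
            rw [hPX, Finset.mem_filter, Finset.mem_Icc] at hm
            calc ((((QQ m).image fun q => q * m).card : ℕ) : ℝ) ≤ ((QQ m).card : ℝ) := by
                  exact_mod_cast Finset.card_image_le
              _ ≤ _ := card_QQ (by omega) hm.1.2
          linarith
      _ = PX.card + PX.card * (Real.log X / Real.log 2) ^ 2 := by simp
  have hXpos : (0 : ℝ) < X := by exact_mod_cast (by omega : 0 < X)
  have hlogX : Real.log X ≤ Real.log x := Real.log_le_log hXpos hXx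
  have hlogX2 : Real.log 2 ≤ Real.log X := by
    apply Real.log_le_log (by norm_num)
    exact_mod_cast hX2
  have h1 : 1 ≤ (Real.log x / Real.log 2) ^ 2 := by
    have : 1 ≤ Real.log x / Real.log 2 := by
      rw [le_div_iff₀ hl2]; linarith
    nlinarith
  have h2 : (Real.log X / Real.log 2) ^ 2 ≤ (Real.log x / Real.log 2) ^ 2 := by
    apply pow_le_pow_left₀ (by positivity)
    exact div_le_div_of_nonneg_right hlogX hl2.le
  have h3 : (PX.card : ℝ) ≤ C * √x := by
    refine (hcount X).trans ?_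
    exact mul_le_mul_of_nonneg_left (Real.sqrt_le_sqrt hXx) hC.le
  have h4 : 0 ≤ C * √x := by positivity
  calc ((Set.ncard {v : ℕ | (v : ℝ) ≤ x ∧ v ∈ S} : ℕ) : ℝ)
      ≤ PX.card + PX.card * (Real.log X / Real.log 2) ^ 2 := hcard
    _ ≤ (C * √x) * (Real.log x / Real.log 2) ^ 2 + (C * √x) * (Real.log x / Real.log 2) ^ 2 := by
        have h5 : (PX.card : ℝ) ≤ (C * √x) * (Real.log x / Real.log 2) ^ 2 := by nlinarith
        have h6 : (PX.card : ℝ) * (Real.log X / Real.log 2) ^ 2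
            ≤ (C * √x) * (Real.log x / Real.log 2) ^ 2 :=
          mul_le_mul h3 h2 (by positivity) h4
        linarith
    _ = 2 * C / Real.log 2 ^ 2 * √x * Real.log x ^ 2 := by
        field_simp; ring

end Pool.Agent.PF20
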