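import Pool.Agent.Lib_helper20.PF.Core

/-!
# Planar functions from an abelian group to an arbitrary group: the prime divisors of exponent one
-/

namespace Pool.Agent.PF20

open WittVector Finset Subgroup

/-- A finite commutative group of order `q m`, `q ∤ m` prime, is a product `K × P`. -/
lemma exists_split {G : Type*} [CommGroup G] [Finite G] {q m : ℕ} [hq : Fact q.Prime]
    (hm : ¬ q ∣ m) (hG : Nat.card G = q * m) :
    ∃ (K P : Subgroup G) (_ : K × P ≃* G), Nat.card K = m ∧ Nat.card P = q := by
  obtain ⟨P⟩ : Nonempty (Sylow q G) := inferInstance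
  have hP : Nat.card P = q := by
    have h1 := P.card_eq_multiplicity
    rw [h1, hG, Nat.factorization_mul hq.out.ne_zero (by rintro rfl; exact hm (dvd_zero _))]
    rw [Finsupp.add_apply, hq.out.factorization_self, Nat.factorization_eq_zero_of_not_dvd hm]
    simp
  obtain ⟨K, hK⟩ := exists_left_complement'_of_coprime (N := (P : Subgroup G))
    (P.card_coprime_index)
  have hcK : Nat.card K = m := by
    have h1 := hK.card_mul_card
    have h2 : Nat.card (P : Subgroup G) = q := hP
    rw [h2, hG, mul_comm] at h1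
    exact Nat.eq_of_mul_eq_mul_left hq.out.pos h1
  refine ⟨K, P, MulEquiv.ofBijective (K.subtype.coprod (P : Subgroup G).subtype) ?_, hcK, hP⟩
  exact hK

/-- If `χ` is a nontrivial homomorphism `N → kˣ`, there is no planar function `G → N` with `G`
commutative of order `q m`, `q ∤ m`. -/
theorem no_char {G N : Type*} [CommGroup G] [Group N] [Finite G] [Finite N] {q m : ℕ}
    [hq : Fact q.Prime] (hm : ¬ q ∣ m) (hG : Nat.card G = q * m)
    {k : Type*} [Field k] [CharP k q] [IsAlgClosed k]
    (φ : G → N) (hφ : ∀ x : G, x ≠ 1 → Function.Bijective fun y => φ (x * y) * (φ y)⁻¹)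
    (χ : N →* kˣ) : χ = 1 := by
  classical
  by_contra hχ
  obtain ⟨K, P, e, hK, hP⟩ := exists_split hm hG
  have := Fintype.ofFinite G
  have := Fintype.ofFinite N
  have := Fintype.ofFinite K
  have := Fintype.ofFinite P
  rw [Nat.card_eq_fintype_card] at hK hP
  let θ : N →* WittVector q k := (teichmuller q).comp ((Units.coeHom k).comp χ)
  have hθ : θ ≠ 1 := by
    intro h1
    apply hχ
    ext n
    have h2 := DFunLike.congr_fun h1 n
    have h3 := congrArg constantCoeff h2
    rw [MonoidHom.one_apply, map_one] at h3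
    exact h3
  have hsum : ∑ n : N, θ n = 0 := sum_hom_units_eq_zero θ hθ
  refine core (q := q) (k := k) hm hK hP (fun g => χ (φ (e g))) ?_
  intro x hx
  have hx' : e x ≠ 1 := by simpa using hx
  have h1 : ∀ y : K × P, teichmuller q ((χ (φ (e (x * y))) * (χ (φ (e y)))⁻¹ : kˣ) : k)
      = θ (φ (e x * e y) * (φ (e y))⁻¹) := by
    intro y
    simp [θ]
  rw [Finset.sum_congr rfl fun y _ => h1 y]
  have h2 := Equiv.sum_comp e.toEquiv (fun y => θ (φ (e x * y) * (φ y)⁻¹))
  refine h2.trans ?_
  rw [← hsum]
  exact Function.Bijective.sum_comp (hφ _ hx') (fun n => θ n)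

/-- Every homomorphism from `N` to a finite commutative group of order prime to `q` is trivial. -/
theorem hom_trivial {G N : Type*} [CommGroup G] [Group N] [Finite G] [Finite N] {q m : ℕ}
    (hq : q.Prime) (hm : ¬ q ∣ m) (hG : Nat.card G = q * m)
    (φ : G → N) (hφ : ∀ x : G, x ≠ 1 → Function.Bijective fun y => φ (x * y) * (φ y)⁻¹)
    {A : Type*} [CommGroup A] [Finite A] (hA : ¬ q ∣ Nat.card A) (ψ : N →* A) (n : N) :
    ψ n = 1 := by
  by_contra hn
  have : Fact q.Prime := ⟨hq⟩
  let k := AlgebraicClosure (ZMod q)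
  have : CharP k q := inferInstance
  have hexp : NeZero ((Monoid.exponent A : ℕ) : k) := by
    refine ⟨fun h0 => hA ?_⟩
    rw [CharP.cast_eq_zero_iff k q] at h0
    exact h0.trans (Group.exponent_dvd_nat_card)
  obtain ⟨χ, hχ⟩ := CommGroup.exists_apply_ne_one_of_hasEnoughRootsOfUnity A k hn
  have h1 := no_char hm hG φ hφ (χ.comp ψ)
  exact hχ (DFunLike.congr_fun h1 n)

/-- The abelianization of `N` has order dividing `q`. -/
theorem card_ab_dvd {G N : Type*} [CommGroup G] [Group N] [Finite G] [Finite N] {q m : ℕ}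
    (hq : q.Prime) (hm : ¬ q ∣ m) (hG : Nat.card G = q * m) (hN : Nat.card N = q * m)
    (φ : G → N) (hφ : ∀ x : G, x ≠ 1 → Function.Bijective fun y => φ (x * y) * (φ y)⁻¹) :
    Nat.card (Abelianization N) ∣ q := by
  classical
  have hq' : Fact q.Prime := ⟨hq⟩
  obtain ⟨S⟩ : Nonempty (Sylow q (Abelianization N)) := inferInstance
  have hS : Nat.card S = Nat.card (Abelianization N) := by
    have hind : ¬ q ∣ Nat.card (Abelianization N ⧸ (S : Subgroup (Abelianization N))) := by
      have := S.not_dvd_index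
      rwa [Subgroup.index_eq_card] at this
    have htriv := hom_trivial hq hm hG φ hφ hind
      ((QuotientGroup.mk' (S : Subgroup (Abelianization N))).comp Abelianization.of)
    have htop : (S : Subgroup (Abelianization N)) = ⊤ := by
      rw [eq_top_iff]
      intro a _
      obtain ⟨n, rfl⟩ := QuotientGroup.mk_surjective a
      exact (QuotientGroup.eq_one_iff _).1 (htriv n)
    have : Nat.card (S : Subgroup (Abelianization N)) = Nat.card (Abelianization N) := by
      rw [htop, Subgroup.card_top]
    exact this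
  obtain ⟨j, hj⟩ := IsPGroup.iff_card.1 S.isPGroup'
  have hj' : Nat.card (Abelianization N) = q ^ j := by rw [← hS]; exact hj
  have hdvd : q ^ j ∣ q * m := by
    rw [← hj', ← hN]
    exact Subgroup.card_quotient_dvd_card _
  rw [hj']
  rcases Nat.lt_or_ge j 2 with hj2 | hj2
  · calc q ^ j ∣ q ^ 1 := pow_dvd_pow _ (by omega)
      _ = q := pow_one q
  · exfalso
    apply hm
    have h2 : q ^ 2 ∣ q * m := (pow_dvd_pow q hj2).trans hdvd
    rw [pow_two] at h2
    exact Nat.dvd_of_mul_dvd_mul_left hq.pos h2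

/-- A finite perfect solvable group is trivial. -/
lemma card_eq_one_of_perfect {N : Type*} [Group N] [Finite N] (hs : Group.IsSolvable N)
    (h : Nat.card (Abelianization N) = 1) : Nat.card N = 1 := by
  by_contra hne
  have : Nontrivial N := by
    rw [← Finite.one_lt_card_iff_nontrivial]
    have := Nat.card_pos (α := N)
    omega
  have h1 := Group.IsSolvable.commutator_lt_top_of_nontrivial N
  have h2 : (commutator N).index = 1 := h
  rw [Subgroup.index_eq_one] at h2
  exact h1.ne h2

/-- Squarefree order with a commutative domain. -/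
theorem squarefree_case {G N : Type*} [CommGroup G] [Group N] [Finite G] [Finite N]
    (hGN : Nat.card G = Nat.card N) (φ : G → N)
    (hφ : ∀ x : G, x ≠ 1 → Function.Bijective fun y => φ (x * y) * (φ y)⁻¹)
    (hsq : Squarefree (Nat.card N)) : Nat.card N = 1 ∨ (Nat.card N).Prime := by
  have hz : IsZGroup N := IsZGroup.of_squarefree hsq
  have hs : Group.IsSolvable N := inferInstance
  by_cases h1 : Nat.card N = 1
  · exact Or.inl h1
  right
  obtain ⟨q, hq, hqN⟩ := Nat.exists_prime_and_dvd h1
  obtain ⟨m, hm⟩ := hqN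
  have hqm : ¬ q ∣ m := by
    rintro ⟨t, rfl⟩
    have : q * q ∣ Nat.card N := ⟨t, by rw [hm]; ring⟩
    exact hq.one_lt.ne' (Nat.isUnit_iff.1 (hsq q this))
  have hd := card_ab_dvd hq hqm (hGN.trans hm) hm φ hφ
  by_cases hm1 : m = 1
  · rw [hm, hm1, mul_one]; exact hq
  exfalso
  obtain ⟨r, hr, hrm⟩ := Nat.exists_prime_and_dvd hm1
  obtain ⟨t, ht⟩ := hrm
  have hN2 : Nat.card N = r * (q * t) := by rw [hm, ht]; ring
  have hrt : ¬ r ∣ q * t := by
    rintro ⟨s, hs⟩
    have : r * r ∣ Nat.card N := ⟨s, by rw [hN2, hs]; ring⟩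
    exact hr.one_lt.ne' (Nat.isUnit_iff.1 (hsq r this))
  have hd2 := card_ab_dvd hr hrt (hGN.trans hN2) hN2 φ hφ
  have hqr : q ≠ r := by
    rintro rfl
    exact hqm ⟨t, ht⟩
  have hco : Nat.Coprime q r := (Nat.coprime_primes hq hr).2 hqr
  have h11 : Nat.card (Abelianization N) = 1 := by
    have := Nat.dvd_gcd hd hd2
    rw [hco.gcd_eq_one] at this
    exact Nat.dvd_one.1 this
  exact h1 (card_eq_one_of_perfect hs h11)

end Pool.Agent.PF20
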