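import Pool.Agent.Lib_helper20.PF.Groups

/-!
# Planar functions and abelian quotients: the local condition on slices

`h : G → K × P`, where `P` is a `q`-group and `q ∤ #K`.
-/

namespace Pool.Agent.PF20

open WittVector Finset Subgroup

/-- Product formula for the images of a planar function under homomorphisms `α`, `β` into a
commutative ring; `Θ n0 - 1` is a unit for some `n0 = (1, β n1)`. -/
lemma prod2 {G N H R : Type*} [Group G] [Group N] [Fintype G] [Fintype N] [CommGroup H]
    [CommRing R] (φ : G → N)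
    (hφ : ∀ x : G, x ≠ 1 → Function.Bijective fun y => φ (x * y) * (φ y)⁻¹)
    (α : G →* H) (β : N →* H) (n1 : N) (Θ : H →* R) (hu : IsUnit (Θ (β n1) - 1)) :
    (∑ g, Θ (α g * β (φ g))) * (∑ g, Θ (α g * β (φ g))⁻¹) = (Fintype.card G : R) := by
  classical
  have h1 : (∑ g, Θ (α g * β (φ g))) * (∑ g, Θ (α g * β (φ g))⁻¹)
      = ∑ y, ∑ x, Θ (α x * β (φ (x * y) * (φ y)⁻¹)) := by
    rw [Finset.sum_mul_sum, Finset.sum_comm]
    refine Finset.sum_congr rfl fun y _ => ?_
    rw [← Equiv.sum_comp (Equiv.mulRight y)]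
    refine Finset.sum_congr rfl fun x _ => ?_
    rw [← map_mul]
    congr 1
    simp only [Equiv.coe_mulRight, map_mul, map_inv, mul_inv]
    have e1 : α x * α y * β (φ (x * y)) * ((α y)⁻¹ * (β (φ y))⁻¹)
        = α x * (α y * (α y)⁻¹) * (β (φ (x * y)) * (β (φ y))⁻¹) := by
      simp only [mul_assoc, mul_comm, mul_left_comm]
    rw [e1, mul_inv_cancel, mul_one]
  have h2 : ∀ x : G, x ≠ 1 → ∑ y, Θ (α x * β (φ (x * y) * (φ y)⁻¹)) = 0 := by
    intro x hx
    have e2 : ∑ y, Θ (α x * β (φ (x * y) * (φ y)⁻¹)) = ∑ n : N, Θ (α x * β n) :=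
      Function.Bijective.sum_comp (hφ x hx) (fun n => Θ (α x * β n))
    rw [e2]
    have e3 : Θ (β n1) * ∑ n : N, Θ (α x * β n) = ∑ n : N, Θ (α x * β n) := by
      rw [Finset.mul_sum]
      refine Eq.trans ?_ (Equiv.sum_comp (Equiv.mulLeft n1) (fun n => Θ (α x * β n)))
      refine Finset.sum_congr rfl fun n _ => ?_
      rw [← map_mul]
      congr 1
      simp only [Equiv.coe_mulLeft, map_mul, mul_left_comm]
    have e4 : (Θ (β n1) - 1) * ∑ n : N, Θ (α x * β n) = 0 := by
      rw [sub_mul, e3, one_mul, sub_self]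
    exact (hu.mul_right_eq_zero).1 e4
  rw [h1, Finset.sum_comm, Finset.sum_eq_single (1 : G)]
  · simp
  · intro x _ hx; exact h2 x hx
  · intro h; exact absurd (Finset.mem_univ _) h

section loc

variable {q : ℕ} [hq : Fact q.Prime] {k : Type*} [Field k] [CharP k q] [IsAlgClosed k]
variable {K P : Type*} [CommGroup K] [Fintype K] [CommGroup P] [Fintype P]
variable {G N : Type*} [Group G] [Group N] [Fintype G] [Fintype N]

lemma unit_W {z : k} (hz : z ≠ 1) : IsUnit (teichmuller q z - 1 : WittVector q k) := by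
  apply WittVector.isUnit_of_coeff_zero_ne_zero
  change constantCoeff (p := q) (R := k) (teichmuller q z - 1) ≠ 0
  rw [map_sub, map_one]
  exact sub_ne_zero.2 hz

/-- slices: one of the two character sums over a slice vanishes in `k`. -/
lemma slice_zero {m b : ℕ} (hm : ¬ q ∣ m) (hG : Fintype.card G = q * m)
    (hP : Fintype.card P = q ^ b) (φ : G → N)
    (hφ : ∀ x : G, x ≠ 1 → Function.Bijective fun y => φ (x * y) * (φ y)⁻¹)
    (α : G →* K × P) (β : N →* K × P) (n1 : N) (hn1 : (β n1).2 = 1)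
    (θ : K →* kˣ) (hθ : θ (β n1).1 ≠ 1) [DecidableEq P] (x : P) :
    (∑ g ∈ Finset.univ.filter (fun g => (α g * β (φ g)).2 = x),
        ((θ (α g * β (φ g)).1 : kˣ) : k)) *
      (∑ g ∈ Finset.univ.filter (fun g => (α g * β (φ g)).2 = x),
        (((θ (α g * β (φ g)).1)⁻¹ : kˣ) : k)) = 0 := by
  classical
  set h : G → K × P := fun g => α g * β (φ g) with hh
  have hθ' : ((θ (β n1).1 : kˣ) : k) ≠ 1 := by
    intro h0; exact hθ (Units.ext h0)
  -- Witt vectors
  have hW := prod2 φ hφ α β n1 (tw (q := q) (P := P) θ) (by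
    change IsUnit (teichmuller q ((θ (β n1).1 : kˣ) : k) - 1 : WittVector q k)
    exact unit_W hθ')
  rw [hG] at hW
  have hnb := not_both hm hW
  -- group algebra
  have hM := prod2 φ hφ α β n1 (th (k := k) (P := P) θ) (by
    have e1 : th (k := k) (P := P) θ (β n1) - 1
        = algebraMap k (MonoidAlgebra k P) (((θ (β n1).1 : kˣ) : k) - 1) := by
      rw [map_sub, map_one, algMap_eq]
      simp only [th, MonoidHom.coe_mk, OneHom.coe_mk, hn1]
    rw [e1]
    exact (IsUnit.mk0 _ (sub_ne_zero.2 hθ')).map _)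
  have hM2 : ((Fintype.card G : ℕ) : MonoidAlgebra k P) = 0 := by
    rw [hG]
    have : ((q * m : ℕ) : MonoidAlgebra k P) = algebraMap k (MonoidAlgebra k P) ((q * m : ℕ) : k) := by
      rw [map_natCast]
    rw [this, Nat.cast_mul, CharP.cast_eq_zero, zero_mul, map_zero]
  rw [hM2] at hM
  have : CharP (MonoidAlgebra k P) q :=
    charP_of_injective_algebraMap (algebraMap k (MonoidAlgebra k P)).injective q
  have hpow : ∀ x : P, x ^ (q ^ b) = 1 := fun x => by rw [← hP]; exact pow_card_eq_one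
  set A := ∑ g, th (k := k) (P := P) θ (α g * β (φ g)) with hA
  set B := ∑ g, th (k := k) (P := P) θ (α g * β (φ g))⁻¹ with hB
  have hAq : A ^ (q ^ b) = algebraMap k (MonoidAlgebra k P)
      ((∑ g, ((θ (h g).1 : kˣ) : k)) ^ (q ^ b)) := by
    rw [hA, sum_pow_char_pow, sum_pow_char_pow, map_sum]
    refine Finset.sum_congr rfl fun g _ => ?_
    rw [map_pow]
    simp only [th, MonoidHom.coe_mk, OneHom.coe_mk, algMap_eq, MonoidAlgebra.single_pow, hpow,
      one_pow, hh]
  have hBq : B ^ (q ^ b) = algebraMap k (MonoidAlgebra k P)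
      ((∑ g, (((θ (h g).1)⁻¹ : kˣ) : k)) ^ (q ^ b)) := by
    rw [hB, sum_pow_char_pow, sum_pow_char_pow, map_sum]
    refine Finset.sum_congr rfl fun g _ => ?_
    rw [map_pow]
    simp only [th, MonoidHom.coe_mk, OneHom.coe_mk, algMap_eq, MonoidAlgebra.single_pow, hpow,
      one_pow, Prod.fst_inv, map_inv, hh]
  have hA1 : A.coeff x = ∑ g ∈ Finset.univ.filter (fun g => (h g).2 = x),
      ((θ (h g).1 : kˣ) : k) := by
    rw [hA, MonoidAlgebra.coeff_sum, Finsupp.finsetSum_apply, Finset.sum_filter]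
    refine Finset.sum_congr rfl fun g _ => ?_
    simp only [th, MonoidHom.coe_mk, OneHom.coe_mk, MonoidAlgebra.coeff_single,
      Finsupp.single_apply, hh]
  have hB1 : B.coeff x⁻¹ = ∑ g ∈ Finset.univ.filter (fun g => (h g).2 = x),
      (((θ (h g).1)⁻¹ : kˣ) : k) := by
    rw [hB, MonoidAlgebra.coeff_sum, Finsupp.finsetSum_apply, Finset.sum_filter]
    refine Finset.sum_congr rfl fun g _ => ?_
    simp only [th, MonoidHom.coe_mk, OneHom.coe_mk, MonoidAlgebra.coeff_single,
      Finsupp.single_apply, Prod.snd_inv, Prod.fst_inv, map_inv, inv_inj, hh]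
  rw [← hA1, ← hB1]
  rcases hnb with hnb | hnb
  · have hne : (∑ g, ((θ (h g).1 : kˣ) : k)) ≠ 0 := by
      intro h0
      apply hnb
      change constantCoeff _ = 0
      rw [map_sum, ← h0]
      rfl
    have hu : IsUnit (A ^ (q ^ b)) := by
      rw [hAq]
      exact (IsUnit.mk0 _ (pow_ne_zero _ hne)).map _
    have hu' : IsUnit A := by
      rwa [isUnit_pow_iff (pow_ne_zero _ hq.out.ne_zero)] at hu
    have hB0 : B = 0 := by
      rwa [hu'.mul_right_eq_zero] at hM
    rw [hB0]; simp
  · have hne : (∑ g, (((θ (h g).1)⁻¹ : kˣ) : k)) ≠ 0 := by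
      intro h0
      apply hnb
      change constantCoeff _ = 0
      rw [map_sum, ← h0]
      refine Finset.sum_congr rfl fun g _ => ?_
      simp only [tw, MonoidHom.coe_mk, OneHom.coe_mk, Prod.fst_inv, map_inv, hh]
      rfl
    have hu : IsUnit (B ^ (q ^ b)) := by
      rw [hBq]
      exact (IsUnit.mk0 _ (pow_ne_zero _ hne)).map _
    have hu' : IsUnit B := by
      rwa [isUnit_pow_iff (pow_ne_zero _ hq.out.ne_zero)] at hu
    have hA0 : A = 0 := by
      rwa [hu'.mul_left_eq_zero] at hM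
    rw [hA0]; simp

/-- orthogonality of the characters `K → kˣ` when `q ∤ #K`. -/
lemma orth (hK : ¬ q ∣ Fintype.card K) [Fintype (K →* kˣ)] [DecidableEq K] (z : K) :
    ∑ l : K →* kˣ, ((l z : kˣ) : k) = if z = 1 then (Fintype.card K : k) else 0 := by
  have hexp : NeZero ((Monoid.exponent K : ℕ) : k) := by
    refine ⟨fun h0 => hK ?_⟩
    rw [CharP.cast_eq_zero_iff k q] at h0
    exact h0.trans Group.exponent_dvd_card
  have hcardH : Fintype.card (K →* kˣ) = Fintype.card K := by
    rw [← Nat.card_eq_fintype_card, CommGroup.card_monoidHom_of_hasEnoughRootsOfUnity,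
      Nat.card_eq_fintype_card]
  split_ifs with hz
  · subst hz; simp [hcardH]
  · obtain ⟨l0, hl0⟩ := CommGroup.exists_apply_ne_one_of_hasEnoughRootsOfUnity K k hz
    let ev : (K →* kˣ) →* k := (Units.coeHom k).comp (MonoidHom.eval z)
    have := sum_hom_units_eq_zero ev (by
      intro h1
      apply hl0
      have h2 := DFunLike.congr_fun h1 l0
      exact Units.ext h2)
    exact this

/-- the number of pairs in the slice over `x` with quotient `τ` -/
def AA [DecidableEq K] [DecidableEq P] (h : G → K × P) (x : P) (τ : K) : ℕ :=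
  (Finset.univ.filter (fun p : G × G => (h p.1).2 = x ∧ (h p.2).2 = x ∧ (h p.1).1 = τ * (h p.2).1)).card

variable (k) in
/-- the slice congruence. -/
lemma slice_congr [DecidableEq K] [DecidableEq P] {m b : ℕ} (hm : ¬ q ∣ m)
    (hG : Fintype.card G = q * m) (hK : ¬ q ∣ Fintype.card K)
    (hP : Fintype.card P = q ^ b) (φ : G → N)
    (hφ : ∀ x : G, x ≠ 1 → Function.Bijective fun y => φ (x * y) * (φ y)⁻¹)
    (α : G →* K × P) (β : N →* K × P) (n1 : N) (hn1 : (β n1).2 = 1) (x : P) :
    ((AA (fun g => α g * β (φ g)) x 1 : ℕ) : k) = (AA (fun g => α g * β (φ g)) x (β n1).1 : ℕ) := by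
  classical
  set h : G → K × P := fun g => α g * β (φ g) with hh
  set n0 := (β n1).1 with hn0
  have hKk : ((Fintype.card K : ℕ) : k) ≠ 0 := fun h0 => hK ((CharP.cast_eq_zero_iff k q _).1 h0)
  have hexp : NeZero ((Monoid.exponent K : ℕ) : k) := by
    refine ⟨fun h0 => hK ?_⟩
    rw [CharP.cast_eq_zero_iff k q] at h0
    exact h0.trans Group.exponent_dvd_card
  have : Finite (K →* kˣ) :=
    Finite.of_equiv K (CommGroup.monoidHom_mulEquiv_of_hasEnoughRootsOfUnity K k).some.symm.toEquiv
  have : Fintype (K →* kˣ) := Fintype.ofFinite _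
  -- the product of the two sums of a character, twisted
  have key : ∀ τ : K, ∑ θ : K →* kˣ, ((θ τ⁻¹ : kˣ) : k) *
      ((∑ g ∈ Finset.univ.filter (fun g => (h g).2 = x), ((θ (h g).1 : kˣ) : k)) *
      (∑ g ∈ Finset.univ.filter (fun g => (h g).2 = x), (((θ (h g).1)⁻¹ : kˣ) : k)))
      = (Fintype.card K : k) * (AA h x τ : ℕ) := by
    intro τ
    calc _ = ∑ g ∈ Finset.univ.filter (fun g => (h g).2 = x),
          ∑ g' ∈ Finset.univ.filter (fun g => (h g).2 = x),
            ∑ θ : K →* kˣ, ((θ (τ⁻¹ * ((h g).1 * ((h g').1)⁻¹)) : kˣ) : k) := by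
            have e1 : ∀ θ : K →* kˣ, ((θ τ⁻¹ : kˣ) : k) *
                ((∑ g ∈ Finset.univ.filter (fun g => (h g).2 = x), ((θ (h g).1 : kˣ) : k)) *
                (∑ g ∈ Finset.univ.filter (fun g => (h g).2 = x), (((θ (h g).1)⁻¹ : kˣ) : k)))
                = ∑ g ∈ Finset.univ.filter (fun g => (h g).2 = x),
                  ∑ g' ∈ Finset.univ.filter (fun g => (h g).2 = x),
                    ((θ (τ⁻¹ * ((h g).1 * ((h g').1)⁻¹)) : kˣ) : k) := by
              intro θ
              rw [Finset.sum_mul_sum, Finset.mul_sum]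
              refine Finset.sum_congr rfl fun i _ => ?_
              rw [Finset.mul_sum]
              refine Finset.sum_congr rfl fun j _ => ?_
              rw [map_mul, map_mul, map_inv θ (h j).1, Units.val_mul, Units.val_mul]
            rw [Finset.sum_congr rfl fun θ _ => e1 θ, Finset.sum_comm]
            refine Finset.sum_congr rfl fun i _ => ?_
            rw [Finset.sum_comm]
      _ = ∑ g ∈ Finset.univ.filter (fun g => (h g).2 = x),
          ∑ g' ∈ Finset.univ.filter (fun g => (h g).2 = x),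
            (if (h g).1 = τ * (h g').1 then (Fintype.card K : k) else 0) := by
            refine Finset.sum_congr rfl fun g _ => ?_
            refine Finset.sum_congr rfl fun g' _ => ?_
            rw [orth hK]
            have e2 : τ⁻¹ * ((h g).1 * ((h g').1)⁻¹) = 1 ↔ (h g).1 = τ * (h g').1 := by
              rw [inv_mul_eq_one, eq_comm, mul_inv_eq_iff_eq_mul]
            simp only [e2]
      _ = (Fintype.card K : k) * (AA h x τ : ℕ) := by
            rw [← Finset.sum_product', ← Finset.sum_filter, Finset.sum_const, nsmul_eq_mul,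
              mul_comm, AA]
            congr 3
            ext p
            simp only [Finset.mem_filter, Finset.mem_product, Finset.mem_univ, true_and, and_assoc]
  have h1 := key 1
  have h2 := key n0
  have h3 : ∑ θ : K →* kˣ, ((θ (1 : K)⁻¹ : kˣ) : k) *
      ((∑ g ∈ Finset.univ.filter (fun g => (h g).2 = x), ((θ (h g).1 : kˣ) : k)) *
      (∑ g ∈ Finset.univ.filter (fun g => (h g).2 = x), (((θ (h g).1)⁻¹ : kˣ) : k)))
      = ∑ θ : K →* kˣ, ((θ n0⁻¹ : kˣ) : k) *
      ((∑ g ∈ Finset.univ.filter (fun g => (h g).2 = x), ((θ (h g).1 : kˣ) : k)) *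
      (∑ g ∈ Finset.univ.filter (fun g => (h g).2 = x), (((θ (h g).1)⁻¹ : kˣ) : k))) := by
    refine Finset.sum_congr rfl fun θ _ => ?_
    by_cases hθ : θ n0 = 1
    · rw [map_inv, map_inv, hθ, map_one]
    · have h0 := slice_zero hm hG hP φ hφ α β n1 hn1 θ hθ x
      have h0' : (∑ g ∈ Finset.univ.filter (fun g => (h g).2 = x), ((θ (h g).1 : kˣ) : k)) *
        (∑ g ∈ Finset.univ.filter (fun g => (h g).2 = x), (((θ (h g).1)⁻¹ : kˣ) : k)) = 0 := h0
      rw [h0', mul_zero, mul_zero]
  rw [h1, h2] at h3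
  exact mul_left_cancel₀ hKk h3

end loc

end Pool.Agent.PF20
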