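import Pool.Agent.Lib_helper20.PF.Slices

/-!
# The inequality for planar functions with large abelian quotients
-/

namespace Pool.Agent.PF20

open Finset Subgroup

section cnt2

variable {G N : Type*} [Group G] [Group N] [Fintype G] [Fintype N] [DecidableEq G]

lemma card_fiber {B : Type*} [Group B] [DecidableEq B] (β : N →* B) (n1 : N) :
    (Finset.univ.filter (fun n => β n = β n1)).card = Nat.card β.ker := by
  classical
  have h1 : Nat.card β.ker = (Finset.univ.filter (fun n => β n = 1)).card := by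
    rw [Nat.card_eq_fintype_card, Fintype.card_subtype]
    simp only [MonoidHom.mem_ker]
  rw [h1]
  refine Finset.card_bij (fun n _ => n1⁻¹ * n) ?_ ?_ ?_
  · intro n hn
    simp only [Finset.mem_filter, Finset.mem_univ, true_and] at hn ⊢
    rw [map_mul, map_inv, hn, inv_mul_cancel]
  · intro a _ b _ hab
    exact mul_left_cancel hab
  · intro n hn
    simp only [Finset.mem_filter, Finset.mem_univ, true_and] at hn
    exact ⟨n1 * n, by simp [hn], by simp⟩

lemma cnt_ker {A B : Type*} [Group A] [Group B] [DecidableEq A] [DecidableEq B] (φ : G → N)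
    (hφ : ∀ x : G, x ≠ 1 → Function.Bijective fun y => φ (x * y) * (φ y)⁻¹)
    (α : G →* A) (β : N →* B) (n1 : N) :
    (Finset.univ.filter (fun z : G × G => α (z.1 * z.2⁻¹) = 1 ∧
      β (φ z.1 * (φ z.2)⁻¹) = β n1)).card
      = (if β n1 = 1 then Fintype.card G else 0) + (Nat.card α.ker - 1) * Nat.card β.ker := by
  classical
  rw [cnt φ hφ (fun y n => α y = 1 ∧ β n = β n1)]
  congr 1
  · simp only [map_one, true_and, eq_comm]
  · have h1 : ∀ y : G, (Finset.univ.filter (fun n => α y = 1 ∧ β n = β n1)).card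
        = if α y = 1 then Nat.card β.ker else 0 := by
      intro y
      by_cases h : α y = 1
      · simp only [h, true_and, if_true]
        exact card_fiber β n1
      · simp [h]
    rw [Finset.sum_congr rfl fun y _ => h1 y, ← Finset.sum_filter, Finset.sum_const, smul_eq_mul]
    congr 1
    have h2 : Nat.card α.ker = (Finset.univ.filter (fun n => α n = 1)).card := by
      rw [Nat.card_eq_fintype_card, Fintype.card_subtype]
      simp only [MonoidHom.mem_ker]
    rw [h2, Finset.filter_erase, Finset.card_erase_of_mem]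
    simp

lemma cnt_N {C : Type*} [Group C] [DecidableEq C] (φ : G → N)
    (hφ : ∀ x : G, x ≠ 1 → Function.Bijective fun y => φ (x * y) * (φ y)⁻¹) (η : N →* C) :
    (Finset.univ.filter (fun z : G × G => η (φ z.1 * (φ z.2)⁻¹) = 1)).card
      = Fintype.card G + (Fintype.card G - 1) * Nat.card η.ker := by
  classical
  have h := cnt_ker φ hφ (1 : G →* Unit) η 1
  simp only [MonoidHom.one_apply, map_one, true_and, if_true, MonoidHom.ker_one,
    Subgroup.card_top] at h
  rw [Nat.card_eq_fintype_card (α := G)] at h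
  exact h

lemma cnt_G {C : Type*} [Group C] [DecidableEq C] (φ : G → N)
    (hφ : ∀ x : G, x ≠ 1 → Function.Bijective fun y => φ (x * y) * (φ y)⁻¹) (η : G →* C) :
    (Finset.univ.filter (fun z : G × G => η (z.1 * z.2⁻¹) = 1)).card
      = Fintype.card G + (Nat.card η.ker - 1) * Fintype.card N := by
  classical
  have h := cnt_ker φ hφ η (1 : N →* Unit) 1
  simp only [MonoidHom.one_apply, and_true, if_true, MonoidHom.ker_one,
    Subgroup.card_top] at h
  rw [Nat.card_eq_fintype_card (α := N)] at h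
  exact h

end cnt2

/-- splitting of a finite commutative group into its `q'`-part and its `q`-part. -/
lemma exists_split2 {H : Type*} [CommGroup H] [Finite H] (q : ℕ) [hq : Fact q.Prime] :
    ∃ (K P : Subgroup H) (_ : K × P ≃* H), ¬ q ∣ Nat.card K ∧ ∃ b, Nat.card P = q ^ b := by
  obtain ⟨P⟩ : Nonempty (Sylow q H) := inferInstance
  obtain ⟨b, hb⟩ := IsPGroup.iff_card.1 P.isPGroup'
  obtain ⟨K, hK⟩ := exists_left_complement'_of_coprime (N := (P : Subgroup H))
    (P.card_coprime_index)
  have hcK : Nat.card K = (P : Subgroup H).index := by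
    have h1 := hK.card_mul_card
    have h2 := (P : Subgroup H).card_mul_index
    rw [← h2, mul_comm] at h1
    exact Nat.eq_of_mul_eq_mul_left Nat.card_pos h1
  refine ⟨K, P, MulEquiv.ofBijective (K.subtype.coprod (P : Subgroup H).subtype) hK, ?_, b, hb⟩
  rw [hcK]
  exact P.not_dvd_index

lemma snd_eq_one {K P : Type*} [Group K] [Group P] [Finite P] {q b j : ℕ} (hq : q.Prime)
    (hP : Nat.card P = q ^ b) (hj : ¬ q ∣ j) (z : K × P) (hz : z ^ j = 1) : z.2 = 1 := by
  have h1 : z.2 ^ j = 1 := by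
    have := congrArg Prod.snd hz
    simpa using this
  have h2 : z.2 ^ (q ^ b) = 1 := by rw [← hP]; exact pow_card_eq_one'
  have h3 : orderOf z.2 ∣ Nat.gcd j (q ^ b) :=
    Nat.dvd_gcd (orderOf_dvd_of_pow_eq_one h1) (orderOf_dvd_of_pow_eq_one h2)
  have h4 : Nat.gcd j (q ^ b) = 1 :=
    ((Nat.Prime.coprime_iff_not_dvd hq).2 hj).symm.pow_right b
  rw [h4, Nat.dvd_one, orderOf_eq_one_iff] at h3
  exact h3

lemma eq_one_of_pow {C : Type*} [Group C] [Finite C] {q j : ℕ} (hq : q.Prime) (c : C)
    (hC : Nat.card C = q) (hj : ¬ q ∣ j) (hc : c ^ j = 1) : c = 1 := by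
  have h2 : c ^ q = 1 := by rw [← hC]; exact pow_card_eq_one'
  have h3 : orderOf c ∣ Nat.gcd j q :=
    Nat.dvd_gcd (orderOf_dvd_of_pow_eq_one hc) (orderOf_dvd_of_pow_eq_one h2)
  have h4 : Nat.gcd j q = 1 := ((Nat.Prime.coprime_iff_not_dvd hq).2 hj).symm
  rw [h4, Nat.dvd_one, orderOf_eq_one_iff] at h3
  exact h3

/-- A surjection of a group of order `q m`, `q ∤ m`, onto a commutative group of order divisible
by `q` yields a surjection onto a group of order `q`, with kernel of order `m`. -/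
lemma exists_eta {G A : Type*} [Group G] [Finite G] [CommGroup A] [Finite A] {q m : ℕ}
    (hq : q.Prime) (hqm : ¬ q ∣ m) (hG : Nat.card G = q * m) (α : G →* A)
    (hα : Function.Surjective α) (hA : q ∣ Nat.card A) :
    ∃ (C : Subgroup A) (η : A →* C), Nat.card C = q ∧ Nat.card (η.comp α).ker = m := by
  have hq' : Fact q.Prime := ⟨hq⟩
  obtain ⟨t, ht⟩ := hA
  have hdvd : Nat.card A ∣ q * m := by
    rw [← hG]; exact Subgroup.card_dvd_of_surjective α hα
  have hqt : ¬ q ∣ t := by
    rintro ⟨s, rfl⟩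
    apply hqm
    rw [ht] at hdvd
    exact (dvd_mul_right q s).trans (Nat.dvd_of_mul_dvd_mul_left hq.pos hdvd)
  obtain ⟨K, P, e, hK, hP⟩ := exists_split hqt ht
  refine ⟨P, (MonoidHom.snd K P).comp e.symm.toMonoidHom, hP, ?_⟩
  have hsurj : Function.Surjective (((MonoidHom.snd K P).comp e.symm.toMonoidHom).comp α) := by
    intro p
    obtain ⟨g, hg⟩ := hα (e (1, p))
    refine ⟨g, ?_⟩
    change (e.symm (α g)).2 = p
    rw [hg, e.symm_apply_apply]
  have h1 := (((MonoidHom.snd K P).comp e.symm.toMonoidHom).comp α).ker.card_mul_index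
  rw [Subgroup.index_ker, MonoidHom.range_eq_top.2 hsurj, Subgroup.card_top, hP, hG,
    mul_comm] at h1
  exact Nat.eq_of_mul_eq_mul_left hq.pos h1

/-- the main inequality -/
theorem main_ineq {G N A B : Type*} [Group G] [Group N] [Finite G] [Finite N]
    [CommGroup A] [CommGroup B] [Finite A] [Finite B] {q m : ℕ} (hq : q.Prime) (hqm : ¬ q ∣ m)
    (hG : Nat.card G = q * m) (hN : Nat.card N = q * m) (φ : G → N)
    (hφ : ∀ x : G, x ≠ 1 → Function.Bijective fun y => φ (x * y) * (φ y)⁻¹)
    (α : G →* A) (β : N →* B) (hα : Function.Surjective α) (hβ : Function.Surjective β)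
    {r : ℕ} (hr : r.Prime) (hrq : r ≠ q) (hrB : r ∣ Nat.card B)
    (hqAB : q ∣ Nat.card A * Nat.card B)
    (hD : (Nat.card α.ker - 1) * Nat.card β.ker ≤ q * m) :
    (q * m - (Nat.card α.ker - 1) * Nat.card β.ker) ^ 2 ≤ m * (q * m + (q * m - 1) * m) := by
  classical
  have hq' : Fact q.Prime := ⟨hq⟩
  have hr' : Fact r.Prime := ⟨hr⟩
  have := Fintype.ofFinite G
  have := Fintype.ofFinite N
  obtain ⟨K, P, e, hK, b, hP⟩ := exists_split2 (H := A × B) q
  have := Fintype.ofFinite K
  have := Fintype.ofFinite P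
  have hG' : Fintype.card G = q * m := by rw [← Nat.card_eq_fintype_card]; exact hG
  have hN' : Fintype.card N = q * m := by rw [← Nat.card_eq_fintype_card]; exact hN
  have hK' : ¬ q ∣ Fintype.card K := by rw [← Nat.card_eq_fintype_card]; exact hK
  have hP' : Fintype.card P = q ^ b := by rw [← Nat.card_eq_fintype_card]; exact hP
  -- an element of order `r` in `B`
  obtain ⟨b0, hb0⟩ := exists_prime_orderOf_dvd_card' r hrB
  obtain ⟨n1, rfl⟩ := hβ b0
  let α' : G →* K × P := e.symm.toMonoidHom.comp ((MonoidHom.inl A B).comp α)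
  let β' : N →* K × P := e.symm.toMonoidHom.comp ((MonoidHom.inr A B).comp β)
  have hpr : ¬ q ∣ r := fun h => hrq ((Nat.prime_dvd_prime_iff_eq hq hr).1 h).symm
  have hn1r : β n1 ^ r = 1 := by rw [← hb0]; exact pow_orderOf_eq_one _
  have hn1 : (β' n1).2 = 1 := by
    apply snd_eq_one hq hP hpr
    rw [← map_pow]
    change e.symm (1, β (n1 ^ r)) = 1
    rw [map_pow, hn1r]
    exact map_one e.symm
  have hn1' : β n1 ≠ 1 := by
    intro h0
    rw [h0, orderOf_one] at hb0
    exact hr.one_lt.ne hb0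
  set h : G → K × P := fun g => α' g * β' (φ g) with hh
  -- translation of equalities of `h`
  have heq : ∀ (z : G × G) (n : N), h z.1 = β' n * h z.2 ↔
      α (z.1 * z.2⁻¹) = 1 ∧ β (φ z.1 * (φ z.2)⁻¹) = β n := by
    intro z n
    have h1 : h z.1 = β' n * h z.2 ↔ α' (z.1 * z.2⁻¹) * β' (φ z.1 * (φ z.2)⁻¹) = β' n := by
      rw [← mul_inv_eq_iff_eq_mul]
      have : h z.1 * (h z.2)⁻¹ = α' (z.1 * z.2⁻¹) * β' (φ z.1 * (φ z.2)⁻¹) := by
        simp only [hh, map_mul, map_inv, mul_inv]
        simp only [mul_assoc, mul_comm, mul_left_comm]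
      rw [this]
    rw [h1]
    have h2 : α' (z.1 * z.2⁻¹) * β' (φ z.1 * (φ z.2)⁻¹)
        = e.symm (α (z.1 * z.2⁻¹), β (φ z.1 * (φ z.2)⁻¹)) := by
      change e.symm (α (z.1 * z.2⁻¹), 1) * e.symm (1, β (φ z.1 * (φ z.2)⁻¹)) = _
      rw [← map_mul, Prod.mk_mul_mk, mul_one, one_mul]
    have h3 : β' n = e.symm (1, β n) := rfl
    rw [h2, h3, e.symm.injective.eq_iff, Prod.ext_iff]
  have hS1 : ∑ x, AA h x 1 = q * m + (Nat.card α.ker - 1) * Nat.card β.ker := by
    rw [sum_AA]
    have h1 := cnt_ker φ hφ α β 1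
    rw [map_one, if_pos rfl, hG'] at h1
    rw [← h1]
    congr 1
    ext z
    simp only [Finset.mem_filter, Finset.mem_univ, true_and]
    have h2 := heq z 1
    rw [map_one, map_one] at h2
    rw [← h2]
    rfl
  have hS0 : ∑ x, AA h x (β' n1).1 = (Nat.card α.ker - 1) * Nat.card β.ker := by
    rw [sum_AA]
    have h1 := cnt_ker φ hφ α β n1
    rw [if_neg hn1', zero_add] at h1
    rw [← h1]
    congr 1
    ext z
    simp only [Finset.mem_filter, Finset.mem_univ, true_and]
    rw [← heq z n1]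
    have h3 : ((β' n1).1, (1 : P)) = β' n1 := Prod.ext rfl hn1.symm
    rw [h3]
  have hdiv : ∀ x, q ∣ AA h x 1 - AA h x (β' n1).1 := by
    intro x
    let k := AlgebraicClosure (ZMod q)
    have : CharP k q := inferInstance
    have h1 := slice_congr k hqm hG' hK' hP' φ hφ α' β' n1 hn1 x
    have h2 : ((AA h x 1 : ℕ) : k) = (AA h x (β' n1).1 : ℕ) := h1
    rw [← CharP.cast_eq_zero_iff k q, Nat.cast_sub (AA_le h x _), h2, sub_self]
  have hcross : ∀ z : G × G, (h z.1).2 = (h z.2).2 → ∃ j : ℕ, ¬ q ∣ j ∧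
      (α (z.1 * z.2⁻¹)) ^ j = 1 ∧ (β (φ z.1 * (φ z.2)⁻¹)) ^ j = 1 := by
    intro z hz
    refine ⟨Nat.card K, hK, ?_⟩
    have h1 : (h z.1 * (h z.2)⁻¹) ^ Nat.card K = 1 := by
      apply Prod.ext
      · simp only [Prod.pow_fst, Prod.fst_one]
        exact pow_card_eq_one'
      · simp only [Prod.pow_snd, Prod.snd_mul, Prod.snd_inv, Prod.snd_one]
        rw [hz, mul_inv_cancel, one_pow]
    have h2 : h z.1 * (h z.2)⁻¹ = e.symm (α (z.1 * z.2⁻¹), β (φ z.1 * (φ z.2)⁻¹)) := by
      have h3 : h z.1 * (h z.2)⁻¹ = α' (z.1 * z.2⁻¹) * β' (φ z.1 * (φ z.2)⁻¹) := by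
        simp only [hh, map_mul, map_inv, mul_inv]
        simp only [mul_assoc, mul_comm, mul_left_comm]
      rw [h3]
      change e.symm (α (z.1 * z.2⁻¹), 1) * e.symm (1, β (φ z.1 * (φ z.2)⁻¹)) = _
      rw [← map_mul, Prod.mk_mul_mk, mul_one, one_mul]
    rw [h2, ← map_pow] at h1
    have h4 : (α (z.1 * z.2⁻¹), β (φ z.1 * (φ z.2)⁻¹)) ^ Nat.card K = 1 :=
      (map_eq_one_iff e.symm e.symm.injective).1 h1
    exact ⟨congrArg Prod.fst h4, congrArg Prod.snd h4⟩
  -- the second moment
  have hS2 : ∑ x, ss h x ^ 2 ≤ q * m + (q * m - 1) * m := by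
    rw [sum_ss_sq]
    rcases hq.dvd_mul.1 hqAB with hqA | hqB
    · obtain ⟨C, η, hC, hη⟩ := exists_eta hq hqm hG α hα hqA
      have h1 := cnt_G φ hφ (η.comp α)
      rw [hη, hG', hN'] at h1
      have h2 : (Finset.univ.filter (fun z : G × G => (h z.1).2 = (h z.2).2)).card
          ≤ (Finset.univ.filter (fun z : G × G => (η.comp α) (z.1 * z.2⁻¹) = 1)).card := by
        apply Finset.card_le_card
        intro z hz
        simp only [Finset.mem_filter, Finset.mem_univ, true_and] at hz ⊢
        obtain ⟨j, hj, hj1, -⟩ := hcross z hz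
        apply eq_one_of_pow hq _ hC hj
        rw [MonoidHom.comp_apply, ← map_pow, hj1, map_one]
      rw [h1] at h2
      refine h2.trans ?_
      have hm0 : 1 ≤ m := Nat.one_le_iff_ne_zero.2 (by rintro rfl; exact hqm (dvd_zero _))
      have hqm1 : 1 ≤ q * m := Nat.mul_pos hq.pos hm0
      have h3 : (m - 1) * (q * m) ≤ (q * m - 1) * m := by
        rw [Nat.sub_mul, Nat.sub_mul]
        have : m * (q * m) = q * m * m := by ring
        have h4 : 1 * m ≤ 1 * (q * m) := by
          rw [one_mul, one_mul]; exact Nat.le_mul_of_pos_left m hq.pos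
        omega
      omega
    · obtain ⟨C, η, hC, hη⟩ := exists_eta hq hqm hN β hβ hqB
      have h1 := cnt_N φ hφ (η.comp β)
      rw [hη, hG'] at h1
      have h2 : (Finset.univ.filter (fun z : G × G => (h z.1).2 = (h z.2).2)).card
          ≤ (Finset.univ.filter (fun z : G × G => (η.comp β) (φ z.1 * (φ z.2)⁻¹) = 1)).card := by
        apply Finset.card_le_card
        intro z hz
        simp only [Finset.mem_filter, Finset.mem_univ, true_and] at hz ⊢
        obtain ⟨j, hj, -, hj1⟩ := hcross z hz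
        apply eq_one_of_pow hq _ hC hj
        rw [MonoidHom.comp_apply, ← map_pow, hj1, map_one]
      rw [h1] at h2
      exact h2
  have hfin := slice_ineq (P := P) (q := q) (m := m) (v := q * m)
    (D := (Nat.card α.ker - 1) * Nat.card β.ker) (S2 := ∑ x, ss h x ^ 2) rfl hq.pos
    (ss h) (fun x => AA h x 1) (fun x => AA h x (β' n1).1) (ss_le h) (fun x => AA_le h x _)
    hdiv hS1 hS0 (by rw [sum_ss, hG']) rfl hD
  exact hfin.trans (Nat.mul_le_mul_left m hS2)

/-- The inequality for commutator subgroups. -/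
theorem comm_ineq {G N : Type*} [Group G] [Group N] [Finite G] [Finite N] {q m : ℕ}
    (hq : q.Prime) (hqm : ¬ q ∣ m) (hG : Nat.card G = q * m) (hN : Nat.card N = q * m) (φ : G → N)
    (hφ : ∀ x : G, x ≠ 1 → Function.Bijective fun y => φ (x * y) * (φ y)⁻¹)
    (hqab : q ∣ Nat.card (Abelianization G) * Nat.card (Abelianization N))
    {r : ℕ} (hr : r.Prime) (hrq : r ≠ q) (hrB : r ∣ Nat.card (Abelianization N))
    (hD : Nat.card (commutator G) * Nat.card (commutator N) ≤ q * m) :
    q * (q * m - Nat.card (commutator G) * Nat.card (commutator N)) ^ 2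
      < (m + 1) * (q * m) ^ 2 := by
  have hkG : Nat.card (Abelianization.of (G := G)).ker = Nat.card (commutator G) := by
    rw [Abelianization.ker_of]
  have hkN : Nat.card (Abelianization.of (G := N)).ker = Nat.card (commutator N) := by
    rw [Abelianization.ker_of]
  have hle : (Nat.card (commutator G) - 1) * Nat.card (commutator N)
      ≤ Nat.card (commutator G) * Nat.card (commutator N) :=
    Nat.mul_le_mul_right _ (Nat.sub_le _ _)
  have h1 := main_ineq hq hqm hG hN φ hφ (Abelianization.of (G := G)) (Abelianization.of (G := N))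
    QuotientGroup.mk_surjective QuotientGroup.mk_surjective hr hrq hrB hqab
    (by rw [hkG, hkN]; exact hle.trans hD)
  rw [hkG, hkN] at h1
  have hm0 : 0 < m := Nat.pos_of_ne_zero (by rintro rfl; exact hqm (dvd_zero _))
  have hv : 0 < q * m := Nat.mul_pos hq.pos hm0
  have h2 : (q * m - Nat.card (commutator G) * Nat.card (commutator N)) ^ 2
      ≤ (q * m - (Nat.card (commutator G) - 1) * Nat.card (commutator N)) ^ 2 :=
    Nat.pow_le_pow_left (Nat.sub_le_sub_left hle _) 2
  have h3 : m * (q * m + (q * m - 1) * m) < m * ((q * m) * (m + 1)) := by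
    apply Nat.mul_lt_mul_of_pos_left _ hm0
    have h4 : (q * m - 1) * m < q * m * m := Nat.mul_lt_mul_of_pos_right (by omega) hm0
    calc q * m + (q * m - 1) * m < q * m + q * m * m := by omega
      _ = q * m * (m + 1) := by ring
  calc q * (q * m - Nat.card (commutator G) * Nat.card (commutator N)) ^ 2
      ≤ q * (m * (q * m + (q * m - 1) * m)) := Nat.mul_le_mul_left q (h2.trans h1)
    _ < q * (m * ((q * m) * (m + 1))) := Nat.mul_lt_mul_of_pos_left h3 hq.pos
    _ = (m + 1) * (q * m) ^ 2 := by ring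

end Pool.Agent.PF20
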