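import Pool.Agent.Lib_helper20.PF.Loc

/-!
# Planar functions and abelian quotients: counting pairs in slices
-/

namespace Pool.Agent.PF20

open Finset Subgroup

section cnt

variable {G N : Type*} [Group G] [Group N] [Fintype G] [Fintype N] [DecidableEq G]

/-- counting pairs through the differences of a planar function -/
lemma cnt (φ : G → N) (hφ : ∀ x : G, x ≠ 1 → Function.Bijective fun y => φ (x * y) * (φ y)⁻¹)
    (p : G → N → Prop) [∀ y, DecidablePred (p y)] :
    (Finset.univ.filter (fun z : G × G => p (z.1 * z.2⁻¹) (φ z.1 * (φ z.2)⁻¹))).card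
      = (if p 1 1 then Fintype.card G else 0)
        + ∑ y ∈ Finset.univ.erase (1 : G), (Finset.univ.filter (fun n => p y n)).card := by
  classical
  have h1 : (Finset.univ.filter (fun z : G × G => p (z.1 * z.2⁻¹) (φ z.1 * (φ z.2)⁻¹))).card
      = ∑ y : G, (Finset.univ.filter (fun g' : G => p y (φ (y * g') * (φ g')⁻¹))).card := by
    rw [Finset.card_filter, Fintype.sum_prod_type, Finset.sum_comm]
    simp_rw [Finset.card_filter]
    rw [Finset.sum_comm (s := (Finset.univ : Finset G)) (t := (Finset.univ : Finset G))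
      (f := fun y g' => if p y (φ (y * g') * (φ g')⁻¹) then 1 else 0)]
    refine Finset.sum_congr rfl fun g' _ => ?_
    refine (Equiv.sum_comp (Equiv.mulRight g')
      (fun g => if p (g * g'⁻¹) (φ g * (φ g')⁻¹) then 1 else 0)).symm.trans ?_
    refine Finset.sum_congr rfl fun y _ => ?_
    simp only [Equiv.coe_mulRight, mul_inv_cancel_right]
  rw [h1, ← Finset.add_sum_erase _ _ (Finset.mem_univ (1 : G))]
  congr 1
  · by_cases h : p 1 1
    · simp [h]
    · simp [h]
  · refine Finset.sum_congr rfl fun y hy => ?_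
    have hy1 : y ≠ 1 := (Finset.mem_erase.1 hy).1
    refine Finset.card_bij (fun g' _ => φ (y * g') * (φ g')⁻¹) ?_ ?_ ?_
    · intro g' hg'
      simpa using hg'
    · intro a _ b _ hab
      exact (hφ y hy1).1 hab
    · intro n hn
      obtain ⟨g', hg'⟩ := (hφ y hy1).2 n
      refine ⟨g', ?_, hg'⟩
      simp only [Finset.mem_filter, Finset.mem_univ, true_and] at hn ⊢
      have : φ (y * g') * (φ g')⁻¹ = n := hg'
      rw [this]; exact hn

end cnt

/-- the numerical inequality for slices -/
lemma slice_ineq {P : Type*} [Fintype P] {q m v D S2 : ℕ} (hv : v = q * m) (hq : 0 < q)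
    (s a1 a0 : P → ℕ) (h1 : ∀ x, s x ≤ a1 x) (h2 : ∀ x, a0 x ≤ a1 x)
    (h3 : ∀ x, q ∣ a1 x - a0 x) (h4 : ∑ x, a1 x = v + D) (h5 : ∑ x, a0 x = D)
    (h6 : ∑ x, s x = v) (h7 : ∑ x, s x ^ 2 = S2) (hD : D ≤ v) :
    (v - D) ^ 2 ≤ m * S2 := by
  classical
  set X := Finset.univ.filter (fun x => a1 x ≠ a0 x) with hX
  have hcard : X.card ≤ m := by
    have h8 : ∑ x, (a1 x - a0 x) = v := by
      have h9 : ∑ x, (a1 x - a0 x) + ∑ x, a0 x = ∑ x, a1 x := by
        rw [← Finset.sum_add_distrib]
        exact Finset.sum_congr rfl fun x _ => Nat.sub_add_cancel (h2 x)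
      omega
    have h10 : X.card * q ≤ v := by
      calc X.card * q = ∑ _x ∈ X, q := by simp
        _ ≤ ∑ x ∈ X, (a1 x - a0 x) := by
            refine Finset.sum_le_sum fun x hx => ?_
            rw [hX, Finset.mem_filter] at hx
            have := h2 x
            exact Nat.le_of_dvd (by omega) (h3 x)
        _ ≤ ∑ x, (a1 x - a0 x) :=
            Finset.sum_le_sum_of_subset (Finset.subset_univ _)
        _ = v := h8
    rw [hv, mul_comm] at h10
    exact Nat.le_of_mul_le_mul_left h10 hq
  have hsplit : ∑ x ∈ X, s x + ∑ x ∈ Xᶜ, s x = v := by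
    rw [Finset.sum_add_sum_compl, h6]
  have hcompl : ∑ x ∈ Xᶜ, s x ≤ D := by
    calc ∑ x ∈ Xᶜ, s x ≤ ∑ x ∈ Xᶜ, a0 x := by
          refine Finset.sum_le_sum fun x hx => ?_
          have : a1 x = a0 x := by
            rw [hX, Finset.mem_compl, Finset.mem_filter] at hx
            by_contra hne
            exact hx ⟨Finset.mem_univ _, hne⟩
          rw [← this]; exact h1 x
      _ ≤ ∑ x, a0 x := Finset.sum_le_sum_of_subset (Finset.subset_univ _)
      _ = D := h5
  have hX1 : v - D ≤ ∑ x ∈ X, s x := by omega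
  calc (v - D) ^ 2 ≤ (∑ x ∈ X, s x) ^ 2 := Nat.pow_le_pow_left hX1 2
    _ ≤ X.card * ∑ x ∈ X, s x ^ 2 := sq_sum_le_card_mul_sum_sq
    _ ≤ m * S2 := by
        apply Nat.mul_le_mul hcard
        rw [← h7]
        exact Finset.sum_le_sum_of_subset (Finset.subset_univ _)

section slices

variable {K P : Type*} [CommGroup K] [Fintype K] [CommGroup P] [Fintype P]
variable {G : Type*} [Fintype G] [DecidableEq K] [DecidableEq P]

/-- size of the fibre -/
def mu (h : G → K × P) (x : P) (τ : K) : ℕ := (Finset.univ.filter (fun g : G => h g = (τ, x))).card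

lemma AA_eq (h : G → K × P) (x : P) (τ : K) :
    AA h x τ = ∑ σ : K, mu h x (τ * σ) * mu h x σ := by
  classical
  unfold AA
  have h1 : (Finset.univ.filter (fun p : G × G => (h p.1).2 = x ∧ (h p.2).2 = x ∧
      (h p.1).1 = τ * (h p.2).1))
      = Finset.univ.biUnion fun σ : K =>
        (Finset.univ.filter (fun g : G => h g = (τ * σ, x))) ×ˢ
        (Finset.univ.filter (fun g : G => h g = (σ, x))) := by
    ext p
    simp only [Finset.mem_filter, Finset.mem_univ, true_and, Finset.mem_biUnion,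
      Finset.mem_product]
    constructor
    · rintro ⟨h1, h2, h3⟩
      exact ⟨(h p.2).1, Prod.ext h3 h1, Prod.ext rfl h2⟩
    · rintro ⟨σ, h1, h2⟩
      rw [h1, h2]
      exact ⟨rfl, rfl, rfl⟩
  rw [h1, Finset.card_biUnion]
  · refine Finset.sum_congr rfl fun σ _ => ?_
    rw [Finset.card_product]; rfl
  · intro σ _ σ' _ hne
    rw [Function.onFun, Finset.disjoint_left]
    intro p hp hp'
    simp only [Finset.mem_product, Finset.mem_filter, Finset.mem_univ, true_and] at hp hp'
    apply hne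
    have := hp.2.symm.trans hp'.2
    exact (Prod.ext_iff.1 this).1

lemma AA_le (h : G → K × P) (x : P) (τ : K) : AA h x τ ≤ AA h x 1 := by
  rw [AA_eq, AA_eq]
  have h1 : ∑ σ : K, mu h x (τ * σ) ^ 2 = ∑ σ : K, mu h x σ ^ 2 :=
    Equiv.sum_comp (Equiv.mulLeft τ) (fun σ => mu h x σ ^ 2)
  have h2 : 2 * ∑ σ : K, mu h x (τ * σ) * mu h x σ ≤ 2 * ∑ σ : K, mu h x (1 * σ) * mu h x σ := by
    calc 2 * ∑ σ : K, mu h x (τ * σ) * mu h x σ
        = ∑ σ : K, 2 * (mu h x (τ * σ) * mu h x σ) := by rw [Finset.mul_sum]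
      _ ≤ ∑ σ : K, (mu h x (τ * σ) ^ 2 + mu h x σ ^ 2) := by
          refine Finset.sum_le_sum fun σ _ => ?_
          have := two_mul_le_add_sq (mu h x (τ * σ)) (mu h x σ)
          nlinarith
      _ = 2 * ∑ σ : K, mu h x (1 * σ) * mu h x σ := by
          rw [Finset.sum_add_distrib, h1]
          simp only [one_mul]
          rw [two_mul]
          congr 1 <;> exact Finset.sum_congr rfl fun σ _ => by ring
  omega

/-- number of elements of the slice over `x` -/
def ss (h : G → K × P) (x : P) : ℕ := (Finset.univ.filter (fun g : G => (h g).2 = x)).card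

lemma ss_le (h : G → K × P) (x : P) : ss h x ≤ AA h x 1 := by
  unfold ss AA
  refine Finset.card_le_card_of_injOn (fun g => (g, g)) ?_ ?_
  · intro g hg
    simp only [Finset.coe_filter, Finset.mem_univ, true_and, Set.mem_setOf_eq] at hg ⊢
    exact ⟨hg, hg, by rw [one_mul]⟩
  · intro a _ b _ hab
    exact (Prod.ext_iff.1 hab).1

lemma sum_ss (h : G → K × P) : ∑ x, ss h x = Fintype.card G := by
  unfold ss
  rw [← Finset.card_univ]
  exact (Finset.card_eq_sum_card_fiberwise (f := fun g => (h g).2)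
    (fun g _ => Finset.mem_univ _)).symm

lemma sum_ss_sq (h : G → K × P) : ∑ x, ss h x ^ 2
    = (Finset.univ.filter (fun z : G × G => (h z.1).2 = (h z.2).2)).card := by
  classical
  have h1 := Finset.card_eq_sum_card_fiberwise
    (s := Finset.univ.filter (fun z : G × G => (h z.1).2 = (h z.2).2))
    (t := (Finset.univ : Finset P)) (f := fun z => (h z.1).2) (fun g _ => Finset.mem_univ _)
  rw [h1]
  refine Finset.sum_congr rfl fun x _ => ?_
  unfold ss
  rw [pow_two, ← Finset.card_product]
  congr 1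
  ext z
  simp only [Finset.mem_filter, Finset.mem_univ, true_and, Finset.mem_product]
  constructor
  · rintro ⟨h1, h2⟩
    exact ⟨by rw [h1, h2], h1⟩
  · rintro ⟨h1, h2⟩
    exact ⟨h2, by rw [← h1, h2]⟩

lemma sum_AA (h : G → K × P) (τ : K) : ∑ x, AA h x τ
    = (Finset.univ.filter (fun z : G × G => h z.1 = (τ, 1) * h z.2)).card := by
  classical
  have h1 := Finset.card_eq_sum_card_fiberwise
    (s := Finset.univ.filter (fun z : G × G => h z.1 = (τ, 1) * h z.2))
    (t := (Finset.univ : Finset P)) (f := fun z => (h z.1).2) (fun g _ => Finset.mem_univ _)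
  rw [h1]
  refine Finset.sum_congr rfl fun x _ => ?_
  unfold AA
  congr 1
  ext z
  simp only [Finset.mem_filter, Finset.mem_univ, true_and, Prod.ext_iff, Prod.fst_mul,
    Prod.snd_mul, one_mul]
  constructor
  · rintro ⟨h1, h2, h3⟩
    exact ⟨⟨h3, by rw [h1, h2]⟩, h1⟩
  · rintro ⟨⟨h1, h2⟩, h3⟩
    exact ⟨h3, by rw [← h2, h3], h1⟩

end slices

end Pool.Agent.PF20
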