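import Pool.Agent.Lib_helper20.PF.Main2

/-!
# The inequality for planar functions of groups with small commutator subgroups
-/

namespace Pool.Agent.PF20

open Finset Subgroup

lemma min_le_of_modEq {q m u w : ℕ} (hq : 0 < q) (h : m + w ≡ u [MOD q]) :
    min (m % q) (q - m % q) ≤ w + u := by
  by_contra hcon
  push Not at hcon
  rw [lt_min_iff] at hcon
  obtain ⟨h5, h6⟩ := hcon
  have h3 : (m % q + w) % q = u % q := by
    rw [Nat.mod_add_mod]; exact h
  have h4 : m % q < q := Nat.mod_lt _ hq
  have h7 : m % q + w < q := by omega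
  have h8 : u < q := by omega
  rw [Nat.mod_eq_of_lt h7, Nat.mod_eq_of_lt h8] at h3
  omega

/-- the inequality for small commutator subgroups -/
theorem main_small {G N A B : Type*} [Group G] [Group N] [Finite G] [Finite N]
    [CommGroup A] [CommGroup B] [Finite A] [Finite B] {q m : ℕ} (hq : q.Prime) (hqm : ¬ q ∣ m)
    (hG : Nat.card G = q * m) (hN : Nat.card N = q * m) (φ : G → N)
    (hφ : ∀ x : G, x ≠ 1 → Function.Bijective fun y => φ (x * y) * (φ y)⁻¹)
    (α : G →* A) (β : N →* B) (hα : Function.Surjective α) (hβ : Function.Surjective β)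
    {r : ℕ} (hr : r.Prime) (hrq : r ≠ q) (hrB : r ∣ Nat.card B)
    (hqA : q ∣ Nat.card A) :
    q * min (m % q) (q - m % q) ≤ 2 * ((Nat.card α.ker - 1) * Nat.card β.ker) := by
  classical
  have hq' : Fact q.Prime := ⟨hq⟩
  have hr' : Fact r.Prime := ⟨hr⟩
  have := Fintype.ofFinite G
  have := Fintype.ofFinite N
  obtain ⟨K, P, e, hK, b, hP⟩ := exists_split2 (H := A × B) q
  have := Fintype.ofFinite K
  have := Fintype.ofFinite P
  have hG' : Fintype.card G = q * m := by rw [← Nat.card_eq_fintype_card]; exact hG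
  have hN' : Fintype.card N = q * m := by rw [← Nat.card_eq_fintype_card]; exact hN
  have hK' : ¬ q ∣ Fintype.card K := by rw [← Nat.card_eq_fintype_card]; exact hK
  have hP' : Fintype.card P = q ^ b := by rw [← Nat.card_eq_fintype_card]; exact hP
  -- an element of order `r` in `B`
  obtain ⟨b0, hb0⟩ := exists_prime_orderOf_dvd_card' r hrB
  obtain ⟨n1, rfl⟩ := hβ b0
  let α' : G →* K × P := e.symm.toMonoidHom.comp ((MonoidHom.inl A B).comp α)
  let β' : N →* K × P := e.symm.toMonoidHom.comp ((MonoidHom.inr A B).comp β)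
  have hpr : ¬ q ∣ r := fun h => hrq ((Nat.prime_dvd_prime_iff_eq hq hr).1 h).symm
  have hn1r : β n1 ^ r = 1 := by rw [← hb0]; exact pow_orderOf_eq_one _
  have hn1 : (β' n1).2 = 1 := by
    apply snd_eq_one hq hP hpr
    rw [← map_pow]
    change e.symm (1, β (n1 ^ r)) = 1
    rw [map_pow, hn1r]
    exact map_one e.symm
  have hn1' : β n1 ≠ 1 := by
    intro h0
    rw [h0, orderOf_one] at hb0
    exact hr.one_lt.ne hb0
  set h : G → K × P := fun g => α' g * β' (φ g) with hh
  -- translation of equalities of `h`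
  have heq : ∀ (z : G × G) (n : N), h z.1 = β' n * h z.2 ↔
      α (z.1 * z.2⁻¹) = 1 ∧ β (φ z.1 * (φ z.2)⁻¹) = β n := by
    intro z n
    have h1 : h z.1 = β' n * h z.2 ↔ α' (z.1 * z.2⁻¹) * β' (φ z.1 * (φ z.2)⁻¹) = β' n := by
      rw [← mul_inv_eq_iff_eq_mul]
      have : h z.1 * (h z.2)⁻¹ = α' (z.1 * z.2⁻¹) * β' (φ z.1 * (φ z.2)⁻¹) := by
        simp only [hh, map_mul, map_inv, mul_inv]
        simp only [mul_assoc, mul_comm, mul_left_comm]
      rw [this]
    rw [h1]
    have h2 : α' (z.1 * z.2⁻¹) * β' (φ z.1 * (φ z.2)⁻¹)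
        = e.symm (α (z.1 * z.2⁻¹), β (φ z.1 * (φ z.2)⁻¹)) := by
      change e.symm (α (z.1 * z.2⁻¹), 1) * e.symm (1, β (φ z.1 * (φ z.2)⁻¹)) = _
      rw [← map_mul, Prod.mk_mul_mk, mul_one, one_mul]
    have h3 : β' n = e.symm (1, β n) := rfl
    rw [h2, h3, e.symm.injective.eq_iff, Prod.ext_iff]
  have hS1 : ∑ x, AA h x 1 = q * m + (Nat.card α.ker - 1) * Nat.card β.ker := by
    rw [sum_AA]
    have h1 := cnt_ker φ hφ α β 1
    rw [map_one, if_pos rfl, hG'] at h1
    rw [← h1]
    congr 1
    ext z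
    simp only [Finset.mem_filter, Finset.mem_univ, true_and]
    have h2 := heq z 1
    rw [map_one, map_one] at h2
    rw [← h2]
    rfl
  have hS0 : ∑ x, AA h x (β' n1).1 = (Nat.card α.ker - 1) * Nat.card β.ker := by
    rw [sum_AA]
    have h1 := cnt_ker φ hφ α β n1
    rw [if_neg hn1', zero_add] at h1
    rw [← h1]
    congr 1
    ext z
    simp only [Finset.mem_filter, Finset.mem_univ, true_and]
    rw [← heq z n1]
    have h3 : ((β' n1).1, (1 : P)) = β' n1 := Prod.ext rfl hn1.symm
    rw [h3]
  have hdiv : ∀ x, q ∣ AA h x 1 - AA h x (β' n1).1 := by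
    intro x
    let k := AlgebraicClosure (ZMod q)
    have : CharP k q := inferInstance
    have h1 := slice_congr k hqm hG' hK' hP' φ hφ α' β' n1 hn1 x
    have h2 : ((AA h x 1 : ℕ) : k) = (AA h x (β' n1).1 : ℕ) := h1
    rw [← CharP.cast_eq_zero_iff k q, Nat.cast_sub (AA_le h x _), h2, sub_self]
  -- a homomorphism of `A` onto a group of order `q`, and its factorisation through `P`
  obtain ⟨C, η, hC, hη⟩ := exists_eta hq hqm hG α hα hqA
  have := Fintype.ofFinite C
  have hC' : Fintype.card C = q := by rw [← Nat.card_eq_fintype_card]; exact hC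
  let ρ : P → C := fun p => η (e (1, p)).1
  have hρ : ∀ g : G, ρ (h g).2 = η (α g) := by
    intro g
    have h1 : e (h g) = (α g, β (φ g)) := by
      change e (e.symm (α g, 1) * e.symm (1, β (φ g))) = _
      rw [← map_mul, e.apply_symm_apply, Prod.mk_mul_mk, mul_one, one_mul]
    have h2 : e (h g) = e ((h g).1, 1) * e (1, (h g).2) := by
      rw [← map_mul, Prod.mk_mul_mk, mul_one, one_mul]
    have h3 : η (e ((h g).1, 1)).1 = 1 := by
      apply eq_one_of_pow hq _ hC hK
      rw [← map_pow, ← Prod.pow_fst, ← map_pow]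
      have h4 : ((h g).1, (1 : P)) ^ Nat.card K = 1 := by
        apply Prod.ext
        · simp only [Prod.pow_fst, Prod.fst_one]
          exact pow_card_eq_one'
        · simp
      rw [h4, map_one, Prod.fst_one, map_one]
    have h5 : η (α g) = η (e ((h g).1, 1)).1 * η (e (1, (h g).2)).1 := by
      rw [← map_mul, ← Prod.fst_mul, ← h2, h1]
    rw [h5, h3, one_mul]
  -- fibres of `η ∘ α` have `m` elements
  have hsurj : Function.Surjective (η.comp α) := by
    rw [← MonoidHom.range_eq_top]
    apply Subgroup.eq_top_of_card_eq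
    have h1 := (η.comp α).ker.card_mul_index
    rw [Subgroup.index_ker, hη, hG, mul_comm] at h1
    have hm0 : 0 < m := Nat.pos_of_ne_zero (by rintro rfl; exact hqm (dvd_zero _))
    rw [hC]
    exact Nat.eq_of_mul_eq_mul_right hm0 h1
  have hfib : ∀ c : C, ∑ x ∈ Finset.univ.filter (fun x => ρ x = c), ss h x = m := by
    intro c
    obtain ⟨g0, hg0⟩ := hsurj c
    have h1 := card_fiber (η.comp α) g0
    rw [hη, hg0] at h1
    rw [← h1]
    have h2 := Finset.card_eq_sum_card_fiberwise
      (s := Finset.univ.filter (fun g => (η.comp α) g = c))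
      (t := Finset.univ.filter (fun x => ρ x = c)) (f := fun g => (h g).2) (by
        intro g hg
        simp only [Finset.coe_filter, Finset.mem_univ, true_and, Set.mem_ofPred_eq] at hg ⊢
        rw [hρ]; exact hg)
    rw [h2]
    refine Finset.sum_congr rfl fun x hx => ?_
    unfold ss
    congr 1
    ext g
    simp only [Finset.mem_filter, Finset.mem_univ, true_and] at hx ⊢
    constructor
    · intro hg
      refine ⟨?_, hg⟩
      rw [MonoidHom.comp_apply, ← hρ, hg, hx]
    · rintro ⟨-, hg⟩; exact hg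
  -- the two error terms
  have hloc : ∀ c : C, min (m % q) (q - m % q)
      ≤ ∑ x ∈ Finset.univ.filter (fun x => ρ x = c), ((AA h x 1 - ss h x) + AA h x (β' n1).1) := by
    intro c
    rw [Finset.sum_add_distrib]
    have h1 : m + ∑ x ∈ Finset.univ.filter (fun x => ρ x = c), (AA h x 1 - ss h x)
        = ∑ x ∈ Finset.univ.filter (fun x => ρ x = c), AA h x 1 := by
      rw [← hfib c, ← Finset.sum_add_distrib]
      exact Finset.sum_congr rfl fun x _ => Nat.add_sub_cancel' (ss_le h x)
    have h2 : ∑ x ∈ Finset.univ.filter (fun x => ρ x = c), AA h x 1 ≡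
        ∑ x ∈ Finset.univ.filter (fun x => ρ x = c), AA h x (β' n1).1 [MOD q] := by
      apply Nat.ModEq.symm
      rw [Nat.modEq_iff_dvd' (Finset.sum_le_sum fun x _ => AA_le h x _)]
      rw [← Finset.sum_tsub_distrib _ (fun x _ => AA_le h x _)]
      exact Finset.dvd_sum fun x _ => hdiv x
    rw [← h1] at h2
    exact min_le_of_modEq hq.pos h2
  have htot : ∑ c : C, ∑ x ∈ Finset.univ.filter (fun x => ρ x = c),
      ((AA h x 1 - ss h x) + AA h x (β' n1).1)
      = 2 * ((Nat.card α.ker - 1) * Nat.card β.ker) := by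
    rw [Finset.sum_fiberwise_of_maps_to (fun x _ => Finset.mem_univ _)
      (fun x => (AA h x 1 - ss h x) + AA h x (β' n1).1)]
    rw [Finset.sum_add_distrib, hS0, Finset.sum_tsub_distrib _ (fun x _ => ss_le h x), hS1,
      sum_ss, hG']
    omega
  calc q * min (m % q) (q - m % q) = ∑ _c : C, min (m % q) (q - m % q) := by
        rw [Finset.sum_const, Finset.card_univ, hC', smul_eq_mul]
    _ ≤ _ := Finset.sum_le_sum fun c _ => hloc c
    _ = _ := htot

/-- The case of the abelianizations. -/
theorem comm_small {G N : Type*} [Group G] [Group N] [Finite G] [Finite N] {q m : ℕ}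
    (hq : q.Prime) (hqm : ¬ q ∣ m) (hG : Nat.card G = q * m) (hN : Nat.card N = q * m) (φ : G → N)
    (hφ : ∀ x : G, x ≠ 1 → Function.Bijective fun y => φ (x * y) * (φ y)⁻¹)
    {r : ℕ} (hr : r.Prime) (hrq : r ≠ q) (hrB : r ∣ Nat.card (Abelianization N))
    (hqc : ¬ q ∣ Nat.card (commutator G)) :
    q * min (m % q) (q - m % q) ≤ 2 * ((Nat.card (commutator G) - 1) * Nat.card (commutator N)) := by
  have hkG : Nat.card (Abelianization.of (G := G)).ker = Nat.card (commutator G) := by
    rw [Abelianization.ker_of]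
  have hkN : Nat.card (Abelianization.of (G := N)).ker = Nat.card (commutator N) := by
    rw [Abelianization.ker_of]
  have hqA : q ∣ Nat.card (Abelianization G) := by
    have h1 := (commutator G).card_mul_index
    have h2 : q ∣ Nat.card (commutator G) * (commutator G).index := by
      rw [h1, hG]; exact dvd_mul_right q m
    exact (hq.dvd_mul.1 h2).resolve_left hqc
  have h1 := main_small hq hqm hG hN φ hφ (Abelianization.of (G := G)) (Abelianization.of (G := N))
    QuotientGroup.mk_surjective QuotientGroup.mk_surjective hr hrq hrB hqA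
  rwa [hkG, hkN] at h1

end Pool.Agent.PF20
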